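import Mathlib
import Pool.Agent.Lib.AbcQ.Core3

/-!
# The arithmetic part of the transcendental core of index `W`

The auxiliary polynomial `F = ∑ c j l X^(j + n l) Y^l` has a zero of weighted order `N1` at
`(1, 1)`, the weights being `1` and `N`. The numbers
`∑ c j l * choose (j + n l) k * β^j * α l` (`k < N2`), `α l` proportional to `β^(n l) * ζ^l`, are
divisible by `p ^ (N1 - N2)` when `p ^ N` divides `ζ - 1` and `p` divides `β - 1`.
-/

namespace Pool.Agent.Lib.AbcW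

open Polynomial Finset Pool.Agent.AbcH1 Pool.Agent.Lib.AbcQ

attribute [local instance] Matrix.seminormedAddCommGroup Matrix.normedAddCommGroup

/-- Siegel's lemma, exponent `e`, general entries. -/
theorem siegelG {ρ : Type} [Fintype ρ] (f : ρ → ℕ → ℕ → ℤ) (D d e H0 : ℕ) (hH0 : 1 ≤ H0)
    (hf : ∀ r, ∀ j ≤ D, ∀ l ≤ d, |f r j l| ≤ (H0 : ℤ)) (hρ : 0 < Fintype.card ρ)
    (h : (e + 1) * Fintype.card ρ ≤ e * ((D + 1) * (d + 1))) :
    ∃ c : ℕ → ℕ → ℤ, (∃ j ≤ D, ∃ l ≤ d, c j l ≠ 0) ∧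
      (∀ j l, |c j l| ≤ ((((D + 1) * (d + 1) * H0) ^ e : ℕ) : ℤ)) ∧
      (∀ r, ∑ j ∈ range (D + 1), ∑ l ∈ range (d + 1), c j l * f r j l = 0) := by
  classical
  set S : ℕ := Fintype.card ρ with hS
  have he : 0 < e := by
    rcases Nat.eq_zero_or_pos e with h0 | h0
    · rw [h0] at h
      omega
    · exact h0
  have hNlt : S < (D + 1) * (d + 1) := by
    by_contra hcon
    have h1 : e * ((D + 1) * (d + 1)) ≤ e * S := Nat.mul_le_mul_left e (by omega)
    have h2 : (e + 1) * S = e * S + S := by ring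
    omega
  let A : Matrix ρ (Fin (D + 1) × Fin (d + 1)) ℤ :=
    Matrix.of fun k jl => f k (jl.1 : ℕ) (jl.2 : ℕ)
  have hcard : Fintype.card (Fin (D + 1) × Fin (d + 1)) = (D + 1) * (d + 1) := by simp
  obtain ⟨t, ht0, htA, htn⟩ := Int.Matrix.exists_ne_zero_int_vec_norm_le A
    (by rw [hcard, ← hS]; omega) (by rw [← hS]; omega)
  have hAn : ‖A‖ ≤ (H0 : ℝ) := by
    rw [Matrix.norm_le_iff (by positivity)]
    intro k jl
    have h4 : ‖A k jl‖ = ((|f k (jl.1 : ℕ) (jl.2 : ℕ)| : ℤ) : ℝ) := by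
      simp only [A, Matrix.of_apply]
      rw [Int.norm_eq_abs]
      push_cast
      rfl
    rw [h4]
    have h5 := hf k (jl.1 : ℕ) (by have := jl.1.2; omega) (jl.2 : ℕ) (by have := jl.2.2; omega)
    exact_mod_cast h5
  have hH0R : (1 : ℝ) ≤ H0 := by exact_mod_cast hH0
  have hmax : max 1 ‖A‖ ≤ (H0 : ℝ) := max_le hH0R hAn
  rw [hcard, ← hS] at htn
  have hbase : (1 : ℝ) ≤ (((D + 1) * (d + 1) : ℕ) : ℝ) * max 1 ‖A‖ := by
    have h1 : (1 : ℝ) ≤ (((D + 1) * (d + 1) : ℕ) : ℝ) := by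
      exact_mod_cast Nat.succ_le_of_lt (by positivity)
    have h2 : (1 : ℝ) ≤ max 1 ‖A‖ := le_max_left _ _
    nlinarith
  have hexp : ((S : ℝ)) / ((((D + 1) * (d + 1) : ℕ) : ℝ) - (S : ℝ)) ≤ e := by
    have h1 : ((e : ℝ) + 1) * (S : ℝ) ≤ e * (((D + 1) * (d + 1) : ℕ) : ℝ) := by
      exact_mod_cast h
    have h2 : (S : ℝ) < (((D + 1) * (d + 1) : ℕ) : ℝ) := by
      exact_mod_cast hNlt
    rw [div_le_iff₀ (by linarith)]
    linarith
  have htn2 : ‖t‖ ≤ ((((D + 1) * (d + 1) : ℕ) : ℝ) * (H0 : ℝ)) ^ e := by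
    refine htn.trans ?_
    calc ((((D + 1) * (d + 1) : ℕ) : ℝ) * max 1 ‖A‖) ^
          ((S : ℝ) / ((((D + 1) * (d + 1) : ℕ) : ℝ) - (S : ℝ)))
        ≤ ((((D + 1) * (d + 1) : ℕ) : ℝ) * max 1 ‖A‖) ^ (e : ℝ) :=
          Real.rpow_le_rpow_of_exponent_le hbase hexp
      _ = ((((D + 1) * (d + 1) : ℕ) : ℝ) * max 1 ‖A‖) ^ e := Real.rpow_natCast _ _
      _ ≤ _ := by gcongr
  refine ⟨fun j l => if hj : j < D + 1 then (if hl : l < d + 1 then t (⟨j, hj⟩, ⟨l, hl⟩) else 0)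
    else 0, ?_, ?_, ?_⟩
  · have : ∃ jl, t jl ≠ 0 := by
      by_contra hcon
      exact ht0 (funext fun jl => by_contra fun h => hcon ⟨jl, h⟩)
    obtain ⟨⟨⟨j, hj⟩, ⟨l, hl⟩⟩, hjl⟩ := this
    refine ⟨j, by omega, l, by omega, ?_⟩
    simp only [hj, hl, dif_pos]
    exact hjl
  · intro j l
    by_cases hj : j < D + 1
    · by_cases hl : l < d + 1
      · simp only [hj, hl, dif_pos]
        have h1 : ‖t (⟨j, hj⟩, ⟨l, hl⟩)‖ ≤ ‖t‖ := norm_le_pi_norm t _
        have h2 := h1.trans htn2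
        rw [Int.norm_eq_abs] at h2
        have h3 : ((|t (⟨j, hj⟩, ⟨l, hl⟩)| : ℤ) : ℝ)
            ≤ ((((((D + 1) * (d + 1) * H0) ^ e : ℕ) : ℤ)) : ℝ) := by
          push_cast
          push_cast at h2
          exact h2
        exact_mod_cast h3
      · simp only [hj, hl, dif_pos, dif_neg, not_false_eq_true, abs_zero]
        positivity
    · simp only [hj, dif_neg, not_false_eq_true, abs_zero]
      positivity
  · intro k
    have h1 : (A.mulVec t) k = 0 := by rw [htA]; rfl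
    rw [Finset.sum_range]
    have h2 : ∀ j : Fin (D + 1), ∑ l ∈ range (d + 1),
        (if hj : (j : ℕ) < D + 1 then (if hl : l < d + 1 then t (⟨j, hj⟩, ⟨l, hl⟩) else 0)
          else 0) * f k (j : ℕ) l
        = ∑ l : Fin (d + 1), t (j, l) * f k (j : ℕ) (l : ℕ) := by
      intro j
      rw [Finset.sum_range]
      refine Finset.sum_congr rfl ?_
      intro l _
      rw [dif_pos j.2, dif_pos l.2]
    simp only [h2]
    have h3 : (A.mulVec t) k = ∑ j : Fin (D + 1), ∑ l : Fin (d + 1),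
        t (j, l) * f k (j : ℕ) (l : ℕ) := by
      unfold Matrix.mulVec dotProduct
      rw [Fintype.sum_prod_type]
      refine Finset.sum_congr rfl ?_
      intro j _
      refine Finset.sum_congr rfl ?_
      intro l _
      simp [A, mul_comm]
    rw [← h3, h1]

/-- The auxiliary polynomial of index `W`. -/
theorem siegelW (n : ℕ → ℕ) (D d N N1 W E e : ℕ) (hN1 : 0 < N1)
    (hnE : ∀ l ≤ d, n l + D ≤ E)
    (h : (e + 1) * (∑ q ∈ range (W + 1), (N1 - N * q)) ≤ e * ((D + 1) * (d + 1))) :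
    ∃ c : ℕ → ℕ → ℤ, (∃ j ≤ D, ∃ l ≤ d, c j l ≠ 0) ∧
      (∀ j l, |c j l| ≤ ((((D + 1) * (d + 1) * 2 ^ (E + d)) ^ e : ℕ) : ℤ)) ∧
      (∀ q ≤ W, ∀ k, k + N * q < N1 → ∑ j ∈ range (D + 1), ∑ l ∈ range (d + 1),
        c j l * ((j + n l).choose k : ℤ) * (l.choose q : ℤ) = 0) := by
  classical
  have hcard : Fintype.card ((q : Fin (W + 1)) × Fin (N1 - N * (q : ℕ)))
      = ∑ q ∈ range (W + 1), (N1 - N * q) := by
    rw [Fintype.card_sigma, Finset.sum_range]
    simp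
  have hpos : 0 < ∑ q ∈ range (W + 1), (N1 - N * q) := by
    refine lt_of_lt_of_le ?_ (Finset.single_le_sum (f := fun q => N1 - N * q)
      (fun _ _ => Nat.zero_le _) (Finset.mem_range.2 (Nat.succ_pos W)))
    simpa using hN1
  obtain ⟨c, hc0, hcK, hc⟩ := siegelG
    (ρ := (q : Fin (W + 1)) × Fin (N1 - N * (q : ℕ)))
    (fun r j l => ((j + n l).choose (r.2 : ℕ) : ℤ) * (l.choose (r.1 : ℕ) : ℤ)) D d e
    (2 ^ (E + d)) Nat.one_le_two_pow (by
      intro r j hj l hl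
      have h1 : (j + n l).choose (r.2 : ℕ) ≤ 2 ^ E := by
        refine (Nat.choose_le_two_pow _ _).trans (Nat.pow_le_pow_right (by norm_num) ?_)
        have := hnE l hl
        omega
      have h2 : l.choose (r.1 : ℕ) ≤ 2 ^ d :=
        (Nat.choose_le_two_pow _ _).trans (Nat.pow_le_pow_right (by norm_num) hl)
      have h3 : (j + n l).choose (r.2 : ℕ) * l.choose (r.1 : ℕ) ≤ 2 ^ (E + d) := by
        rw [pow_add]
        exact Nat.mul_le_mul h1 h2
      rw [abs_of_nonneg (by positivity)]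
      exact_mod_cast h3) (by rw [hcard]; exact hpos) (by rw [hcard]; exact h)
  refine ⟨c, hc0, hcK, ?_⟩
  intro q hq k hk
  have h1 := hc ⟨⟨q, by omega⟩, ⟨k, by simp only; omega⟩⟩
  simp only at h1
  rw [← h1]
  refine Finset.sum_congr rfl ?_
  intro j _
  refine Finset.sum_congr rfl ?_
  intro l _
  ring

theorem one_add_pow_range {R : Type*} [CommRing R] (w : R) (l d : ℕ) (hl : l ≤ d) :
    (1 + w) ^ l = ∑ q ∈ range (d + 1), (l.choose q : R) * w ^ q := by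
  have h1 : (1 + w) ^ l = ∑ q ∈ range (l + 1), (l.choose q : R) * w ^ q := by
    rw [add_comm, add_pow]
    refine Finset.sum_congr rfl ?_
    intro q _
    rw [one_pow]
    ring
  rw [h1]
  refine Finset.sum_subset ?_ ?_
  · intro q hq
    rw [Finset.mem_range] at hq ⊢
    omega
  · intro q _ hq
    rw [Finset.mem_range, not_lt] at hq
    rw [Nat.choose_eq_zero_of_lt (by omega)]
    simp

theorem bigJ_dvdW (n : ℕ → ℕ) (D d N W N1 N2 p : ℕ) (hN12 : N2 ≤ N1)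
    (hN1W : N1 ≤ N * (W + 1) + N2) (c : ℕ → ℕ → ℤ)
    (hc : ∀ q ≤ W, ∀ k, k + N * q < N1 → ∑ j ∈ range (D + 1), ∑ l ∈ range (d + 1),
        c j l * ((j + n l).choose k : ℤ) * (l.choose q : ℤ) = 0)
    (B1 B2 V Z1 Z2 : ℤ) (a : ℕ → ℤ) (hB : (p : ℤ) ∣ B1 - B2)
    (hY : ((p ^ N : ℕ) : ℤ) ∣ Z1 - Z2)
    (hrel : ∀ l ≤ d, a l * B1 ^ (n l) * Z1 ^ (d - l) = V * B2 ^ (n l) * Z2 ^ (d - l))
    (hZ1 : IsCoprime (p : ℤ) Z1) (hZ2 : IsCoprime (p : ℤ) Z2) (hB1 : IsCoprime (p : ℤ) B1)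
    (k : ℕ) (hk : k < N2) :
    ((p ^ (N1 - N2) : ℕ) : ℤ) ∣ bigJ n D d c B1 B2 a k := by
  rw [← ZMod.intCast_zmod_eq_zero_iff_dvd]
  set s : ℕ := N1 - N2 with hs
  have hu : ∀ B : ℤ, IsCoprime (p : ℤ) B → IsUnit ((B : ℤ) : ZMod (p ^ s)) := by
    intro B hB
    exact isUnit_of_isCoprime (by push_cast; exact hB.pow_left)
  have huB := hu B1 hB1
  have huZ1 := hu Z1 hZ1
  have huZ2 := hu Z2 hZ2
  obtain ⟨b, hb⟩ := huB.dvd (a := ((B2 : ℤ) : ZMod (p ^ s)))
  obtain ⟨z, hz⟩ := huZ2.dvd (a := ((Z1 : ℤ) : ZMod (p ^ s)))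
  have huz : IsUnit z := by
    rw [hz] at huZ1
    exact isUnit_of_mul_isUnit_right huZ1
  have hp0 : ∀ t : ℕ, s ≤ t → (p : ZMod (p ^ s)) ^ t = 0 := by
    intro t ht
    have h4 : ((p ^ s : ℕ) : ZMod (p ^ s)) = 0 := ZMod.natCast_self _
    push_cast at h4
    rw [← Nat.sub_add_cancel ht, pow_add, h4, mul_zero]
  set w : ZMod (p ^ s) := z - 1 with hw
  obtain ⟨r, hr⟩ := hY
  have hYw : ((Z2 : ℤ) : ZMod (p ^ s)) * w = (p : ZMod (p ^ s)) ^ N * ((r : ℤ) : ZMod (p ^ s)) := by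
    have h2 : (((Z1 - Z2 : ℤ)) : ZMod (p ^ s)) = ((((p ^ N : ℕ) : ℤ) * r : ℤ) : ZMod (p ^ s)) := by
      rw [hr]
    push_cast at h2
    rw [hz] at h2
    rw [hw]
    linear_combination h2
  obtain ⟨t, ht⟩ := hB
  have hb0 : ((B1 : ℤ) : ZMod (p ^ s)) * (b - 1)
      = -((p : ZMod (p ^ s)) * ((t : ℤ) : ZMod (p ^ s))) := by
    have h2 : (((B1 - B2 : ℤ)) : ZMod (p ^ s)) = (((p : ℤ) * t : ℤ) : ZMod (p ^ s)) := by rw [ht]
    push_cast at h2
    rw [hb] at h2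
    linear_combination -h2
  -- `w ^ q * (b - 1) ^ r = 0` when the exponents are large enough
  have hwb : ∀ q r' : ℕ, s ≤ N * q + r' → w ^ q * (b - 1) ^ r' = 0 := by
    intro q r' hqr
    have h1 : (((Z2 : ℤ) : ZMod (p ^ s)) ^ q * ((B1 : ℤ) : ZMod (p ^ s)) ^ r') *
        (w ^ q * (b - 1) ^ r') = 0 := by
      have h2 : (((Z2 : ℤ) : ZMod (p ^ s)) ^ q * ((B1 : ℤ) : ZMod (p ^ s)) ^ r') *
          (w ^ q * (b - 1) ^ r')
          = (((Z2 : ℤ) : ZMod (p ^ s)) * w) ^ q * (((B1 : ℤ) : ZMod (p ^ s)) * (b - 1)) ^ r' := by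
        rw [mul_pow, mul_pow]
        ring
      rw [h2, hYw, hb0, neg_pow, mul_pow, mul_pow, ← pow_mul]
      have h3 := hp0 (N * q + r') hqr
      rw [pow_add] at h3
      linear_combination ((r : ℤ) : ZMod (p ^ s)) ^ q * (-1) ^ r' *
        ((t : ℤ) : ZMod (p ^ s)) ^ r' * h3
    exact (((huZ2.pow q).mul (huB.pow r')).mul_right_eq_zero).1 h1
  have hab : ∀ l ≤ d, ((a l : ℤ) : ZMod (p ^ s)) * z ^ d
      = (V : ZMod (p ^ s)) * b ^ (n l) * (1 + w) ^ l := by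
    intro l hl
    have h1 : (((a l * B1 ^ (n l) * Z1 ^ (d - l) : ℤ)) : ZMod (p ^ s))
        = ((V * B2 ^ (n l) * Z2 ^ (d - l) : ℤ) : ZMod (p ^ s)) := by rw [hrel l hl]
    push_cast at h1
    rw [hb, hz, mul_pow, mul_pow] at h1
    have h2 : (((B1 : ℤ) : ZMod (p ^ s)) ^ (n l) * ((Z2 : ℤ) : ZMod (p ^ s)) ^ (d - l)) *
        (((a l : ℤ) : ZMod (p ^ s)) * z ^ (d - l) - (V : ZMod (p ^ s)) * b ^ (n l)) = 0 := by
      linear_combination h1
    have h3 := sub_eq_zero.1 ((((huB.pow (n l)).mul (huZ2.pow (d - l))).mul_right_eq_zero).1 h2)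
    have h4 : z ^ d = z ^ (d - l) * z ^ l := by rw [← pow_add, Nat.sub_add_cancel hl]
    have h5 : (1 : ZMod (p ^ s)) + w = z := by rw [hw]; ring
    rw [h5, h4, ← mul_assoc, h3]
  have hvan : ∀ q ∈ range (d + 1), w ^ q * ∑ j ∈ range (D + 1), ∑ l ∈ range (d + 1),
      (((c j l * (l.choose q : ℤ) : ℤ)) : ZMod (p ^ s)) * ((j + n l).choose k : ZMod (p ^ s)) *
        b ^ (j + n l) = 0 := by
    intro q _
    rcases le_or_gt s (N * q) with hsq | hsq
    · have h1 := hwb q 0 (by omega)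
      rw [pow_zero, mul_one] at h1
      rw [h1, zero_mul]
    · have hqW : q ≤ W := by
        by_contra hcon
        have h1 : N * (W + 1) ≤ N * q := Nat.mul_le_mul_left _ (by omega)
        omega
      refine vanish3 n D d (s - N * q) (N1 - N * q) N2 (by omega)
        (fun j l => c j l * (l.choose q : ℤ)) ?_ b (w ^ q) (hwb q (s - N * q) (by omega)) k hk
      intro k' hk'
      have h1 := hc q hqW k' (by omega)
      rw [← h1]
      refine Finset.sum_congr rfl ?_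
      intro j _
      refine Finset.sum_congr rfl ?_
      intro l _
      ring
  have hI : z ^ d * ((bigJ n D d c B1 B2 a k : ℤ) : ZMod (p ^ s))
      = ((B1 : ℤ) : ZMod (p ^ s)) ^ D * (V : ZMod (p ^ s)) *
        ∑ q ∈ range (d + 1), w ^ q * ∑ j ∈ range (D + 1), ∑ l ∈ range (d + 1),
          (((c j l * (l.choose q : ℤ) : ℤ)) : ZMod (p ^ s)) *
            ((j + n l).choose k : ZMod (p ^ s)) * b ^ (j + n l) := by
    have hL : z ^ d * ((bigJ n D d c B1 B2 a k : ℤ) : ZMod (p ^ s))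
        = ∑ j ∈ range (D + 1), ∑ l ∈ range (d + 1), ∑ q ∈ range (d + 1),
          ((B1 : ℤ) : ZMod (p ^ s)) ^ D * (V : ZMod (p ^ s)) * (w ^ q *
            ((((c j l : ℤ)) : ZMod (p ^ s)) * (l.choose q : ZMod (p ^ s)) *
              ((j + n l).choose k : ZMod (p ^ s)) * b ^ (j + n l))) := by
      unfold bigJ
      push_cast
      rw [Finset.mul_sum]
      refine Finset.sum_congr rfl ?_
      intro j hj
      rw [Finset.mul_sum]
      refine Finset.sum_congr rfl ?_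
      intro l hl
      rw [Finset.mem_range] at hj hl
      have h1 := hab l (by omega)
      rw [one_add_pow_range w l d (by omega)] at h1
      have h2 : z ^ d * (((c j l : ℤ) : ZMod (p ^ s)) * ((j + n l).choose k : ZMod (p ^ s)) *
          (((B2 : ℤ) : ZMod (p ^ s)) ^ j * ((B1 : ℤ) : ZMod (p ^ s)) ^ (D - j)) *
          ((a l : ℤ) : ZMod (p ^ s)))
          = (((B1 : ℤ) : ZMod (p ^ s)) ^ D * (V : ZMod (p ^ s)) *
            (((c j l : ℤ) : ZMod (p ^ s)) * ((j + n l).choose k : ZMod (p ^ s)) *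
              b ^ (j + n l))) * ∑ q ∈ range (d + 1), (l.choose q : ZMod (p ^ s)) * w ^ q := by
        have e1 : ((B1 : ℤ) : ZMod (p ^ s)) ^ D
            = ((B1 : ℤ) : ZMod (p ^ s)) ^ j * ((B1 : ℤ) : ZMod (p ^ s)) ^ (D - j) := by
          rw [← pow_add]
          congr 1
          omega
        rw [e1, hb, mul_pow, pow_add]
        linear_combination ((c j l : ℤ) : ZMod (p ^ s)) * ((j + n l).choose k : ZMod (p ^ s)) *
          (((B1 : ℤ) : ZMod (p ^ s)) ^ j * b ^ j * ((B1 : ℤ) : ZMod (p ^ s)) ^ (D - j)) * h1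
      rw [h2, Finset.mul_sum]
      refine Finset.sum_congr rfl ?_
      intro q _
      ring
    rw [hL, Finset.mul_sum]
    have hR : ∀ q ∈ range (d + 1), ((B1 : ℤ) : ZMod (p ^ s)) ^ D * (V : ZMod (p ^ s)) *
        (w ^ q * ∑ j ∈ range (D + 1), ∑ l ∈ range (d + 1),
          (((c j l * (l.choose q : ℤ) : ℤ)) : ZMod (p ^ s)) *
            ((j + n l).choose k : ZMod (p ^ s)) * b ^ (j + n l))
        = ∑ j ∈ range (D + 1), ∑ l ∈ range (d + 1),
          ((B1 : ℤ) : ZMod (p ^ s)) ^ D * (V : ZMod (p ^ s)) * (w ^ q *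
            ((((c j l : ℤ)) : ZMod (p ^ s)) * (l.choose q : ZMod (p ^ s)) *
              ((j + n l).choose k : ZMod (p ^ s)) * b ^ (j + n l))) := by
      intro q _
      rw [Finset.mul_sum, Finset.mul_sum]
      refine Finset.sum_congr rfl ?_
      intro j _
      rw [Finset.mul_sum, Finset.mul_sum]
      refine Finset.sum_congr rfl ?_
      intro l _
      push_cast
      ring
    rw [Finset.sum_congr rfl hR]
    symm
    rw [Finset.sum_comm]
    refine Finset.sum_congr rfl ?_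
    intro j _
    exact Finset.sum_comm
  have h0 : z ^ d * ((bigJ n D d c B1 B2 a k : ℤ) : ZMod (p ^ s)) = 0 := by
    rw [hI, Finset.sum_eq_zero hvan, mul_zero]
  exact ((huz.pow d).mul_right_eq_zero).1 h0

/-- A root of a binary form with integer coefficients. -/
theorem root_dvd (d : ℕ) (C : ℕ → ℤ) (Z1 Z2 : ℤ) (hZ1 : Z1 ≠ 0) (hcop : IsCoprime Z1 Z2)
    (hne : ∃ l, l ≤ d ∧ C l ≠ 0)
    (h : ∑ l ∈ range (d + 1), C l * Z1 ^ l * Z2 ^ (d - l) = 0) :
    ∃ l ≤ d, C l ≠ 0 ∧ Z1 ∣ C l := by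
  classical
  obtain ⟨hl0, hC0⟩ := Nat.find_spec hne
  set l0 := Nat.find hne with hl0def
  refine ⟨l0, hl0, hC0, ?_⟩
  have hmin : ∀ l < l0, C l = 0 := by
    intro l hl
    by_contra hcon
    exact Nat.find_min hne hl ⟨by omega, hcon⟩
  have h1 : Z1 ^ (l0 + 1) ∣ C l0 * Z1 ^ l0 * Z2 ^ (d - l0) := by
    have h2 : ∑ l ∈ range (d + 1), C l * Z1 ^ l * Z2 ^ (d - l)
        = C l0 * Z1 ^ l0 * Z2 ^ (d - l0) +
          ∑ l ∈ (range (d + 1)).erase l0, C l * Z1 ^ l * Z2 ^ (d - l) :=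
      (Finset.add_sum_erase _ _ (Finset.mem_range.2 (by omega))).symm
    rw [h] at h2
    have h3 : Z1 ^ (l0 + 1) ∣
        ∑ l ∈ (range (d + 1)).erase l0, C l * Z1 ^ l * Z2 ^ (d - l) := by
      refine Finset.dvd_sum ?_
      intro l hl
      rw [Finset.mem_erase] at hl
      rcases Nat.lt_or_ge l l0 with h4 | h4
      · rw [hmin l h4, zero_mul, zero_mul]
        exact dvd_zero _
      · have h5 : l0 + 1 ≤ l := by
          have := hl.1
          omega
        exact ((pow_dvd_pow Z1 h5).mul_left _).mul_right _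
    have h4 : C l0 * Z1 ^ l0 * Z2 ^ (d - l0)
        = -∑ l ∈ (range (d + 1)).erase l0, C l * Z1 ^ l * Z2 ^ (d - l) := by
      linear_combination -h2
    rw [h4]
    exact (dvd_neg).2 h3
  have h2 : Z1 ^ l0 * Z1 ∣ Z1 ^ l0 * (C l0 * Z2 ^ (d - l0)) := by
    have h3 : Z1 ^ l0 * (C l0 * Z2 ^ (d - l0)) = C l0 * Z1 ^ l0 * Z2 ^ (d - l0) := by ring
    rw [h3, ← pow_succ]
    exact h1
  have h3 := (mul_dvd_mul_iff_left (pow_ne_zero l0 hZ1)).1 h2
  exact (hcop.pow_right).dvd_of_dvd_mul_right h3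

/-- The auxiliary polynomial does not vanish on the line `Y = Z1 / Z2`. -/
theorem line_ne_zero (n : ℕ → ℕ) (D d K : ℕ) (c : ℕ → ℕ → ℤ)
    (hc0 : ∃ j ≤ D, ∃ l ≤ d, c j l ≠ 0) (hcK : ∀ j l, |c j l| ≤ (K : ℤ))
    (Z1 Z2 : ℤ) (hZ1 : Z1 ≠ 0) (hZ2 : Z2 ≠ 0) (hcop : IsCoprime Z1 Z2)
    (hbig : (K : ℤ) < |Z1| ∨ (K : ℤ) < |Z2|) :
    ∃ i, ∑ l ∈ range (d + 1), (∑ j ∈ range (D + 1),
      if j + n l = i then ((c j l : ℤ) : ℚ) * ((Z1 : ℚ) / Z2) ^ l else 0) ≠ 0 := by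
  classical
  obtain ⟨j0, hj0, l0, hl0, hjl⟩ := hc0
  refine ⟨j0 + n l0, ?_⟩
  intro hcon
  set i := j0 + n l0 with hi
  set C : ℕ → ℤ := fun l => if n l ≤ i ∧ i ≤ n l + D then c (i - n l) l else 0 with hC
  have hCK : ∀ l, |C l| ≤ (K : ℤ) := by
    intro l
    simp only [hC]
    split_ifs
    · exact hcK _ _
    · rw [abs_zero]
      positivity
  have hC0 : C l0 ≠ 0 := by
    have h1 : C l0 = c j0 l0 := by
      simp only [hC]
      rw [if_pos ⟨by omega, by omega⟩]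
      congr 1
      omega
    rw [h1]
    exact hjl
  have hZ2q : (Z2 : ℚ) ≠ 0 := by exact_mod_cast hZ2
  have hsum : ∑ l ∈ range (d + 1), C l * Z1 ^ l * Z2 ^ (d - l) = 0 := by
    have h1 : ∀ l ∈ range (d + 1), (Z2 : ℚ) ^ d * (∑ j ∈ range (D + 1),
        if j + n l = i then ((c j l : ℤ) : ℚ) * ((Z1 : ℚ) / Z2) ^ l else 0)
        = ((C l * Z1 ^ l * Z2 ^ (d - l) : ℤ) : ℚ) := by
      intro l hl
      rw [Finset.mem_range] at hl
      have h2 : (∑ j ∈ range (D + 1),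
          if j + n l = i then ((c j l : ℤ) : ℚ) * ((Z1 : ℚ) / Z2) ^ l else 0)
          = ((C l : ℤ) : ℚ) * ((Z1 : ℚ) / Z2) ^ l := by
        by_cases h3 : n l ≤ i ∧ i ≤ n l + D
        · have h4 : C l = c (i - n l) l := by
            simp only [hC]
            rw [if_pos h3]
          rw [h4, Finset.sum_eq_single (i - n l)]
          · rw [if_pos (by omega)]
          · intro j _ hj
            rw [if_neg (by omega)]
          · intro h5
            exact absurd (Finset.mem_range.2 (by omega)) h5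
        · have h4 : C l = 0 := by
            simp only [hC]
            rw [if_neg h3]
          rw [h4, Int.cast_zero, zero_mul]
          refine Finset.sum_eq_zero ?_
          intro j hj
          rw [Finset.mem_range] at hj
          rw [if_neg]
          intro h5
          exact h3 ⟨by omega, by omega⟩
      rw [h2]
      push_cast
      have h3 : (Z2 : ℚ) ^ d = (Z2 : ℚ) ^ (d - l) * (Z2 : ℚ) ^ l := by
        rw [← pow_add, Nat.sub_add_cancel (by omega)]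
      rw [h3, div_pow]
      field_simp
    have h2 : ((∑ l ∈ range (d + 1), C l * Z1 ^ l * Z2 ^ (d - l) : ℤ) : ℚ) = 0 := by
      push_cast
      have h3 := Finset.sum_congr (rfl : range (d + 1) = range (d + 1)) h1
      push_cast at h3
      rw [← h3, ← Finset.mul_sum, hcon, mul_zero]
    exact_mod_cast h2
  have hdvd_le : ∀ (Z x : ℤ), x ≠ 0 → |x| ≤ (K : ℤ) → Z ∣ x → |Z| ≤ (K : ℤ) := by
    intro Z x hx hxK hZx
    have h1 : |Z| ∣ |x| := (abs_dvd_abs Z x).2 hZx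
    exact (Int.le_of_dvd (abs_pos.2 hx) h1).trans hxK
  rcases hbig with hbig | hbig
  · obtain ⟨l, _, hl2, hl3⟩ := root_dvd d C Z1 Z2 hZ1 hcop ⟨l0, hl0, hC0⟩ hsum
    have := hdvd_le Z1 (C l) hl2 (hCK l) hl3
    omega
  · obtain ⟨l, _, hl2, hl3⟩ := root_dvd d (fun l => C (d - l)) Z2 Z1 hZ2 hcop.symm
      ⟨d - l0, Nat.sub_le _ _, by
        show C (d - (d - l0)) ≠ 0
        rw [Nat.sub_sub_self hl0]
        exact hC0⟩ (by
        rw [← hsum, ← Finset.sum_range_reflect]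
        refine Finset.sum_congr rfl ?_
        intro l hl
        rw [Finset.mem_range] at hl
        have e1 : d - (d + 1 - 1 - l) = l := by omega
        have e2 : d + 1 - 1 - l = d - l := by omega
        rw [e1, e2]
        ring)
    have := hdvd_le Z2 (C (d - l)) hl2 (hCK _) hl3
    omega

end Pool.Agent.Lib.AbcW
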