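import Pool.Agent.Lib.AbcW.Strip

/-!
# Zero estimate with weighted multiplicities

`F = ∑ c j l X^(j + n l) Y^l` has weighted order at least `N1` at `(1,1)` (weights `1` and `N`)
and `F(X,z)` has order at least `N2` at `β`. The support lies in a strip. Then the number of
conditions cannot exceed the number of coefficients by much.
-/

set_option autoImplicit false

namespace Pool.Agent.Lib.AbcW

open Polynomial Finset

theorem expand_dvd' {m : ℕ} {f g : ℚ[X]} (h : f ∣ g) : expand ℚ m f ∣ expand ℚ m g := by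
  obtain ⟨w, rfl⟩ := h
  rw [map_mul]
  exact dvd_mul_right _ _

/-- **Zero estimate.** -/
theorem zeroEst3 (n : ℕ → ℕ) (c : ℕ → ℕ → ℚ) (D d γ N W N1 N2 lo hi : ℕ) (β z : ℚ)
    (hγ : 0 < γ) (hN : 0 < N) (hNW : N * W ≤ N1)
    (hlo : ∀ l ≤ d, lo ≤ γ * n l + N * l) (hhi : ∀ l ≤ d, γ * (n l + D) + N * l ≤ hi)
    (hβ0 : β ≠ 0) (hβ1 : β ≠ 1)
    (h1 : ∀ q ≤ W, ∀ k, k + N * q < N1 → ∑ j ∈ range (D + 1), ∑ l ∈ range (d + 1),
      c j l * ((j + n l).choose k : ℚ) * (l.choose q : ℚ) = 0)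
    (h2 : ∀ k < N2, ∑ j ∈ range (D + 1), ∑ l ∈ range (d + 1),
      c j l * ((j + n l).choose k : ℚ) * β ^ (j + n l) * z ^ l = 0)
    (h3 : ∃ i, ∑ l ∈ range (d + 1),
      (∑ j ∈ range (D + 1), if j + n l = i then c j l * z ^ l else 0) ≠ 0)
    (hineq : ∀ a r, a ≤ W + 1 → a ≤ r → 1 ≤ r → r ≤ d + 1 →
      r * (hi - lo) + γ * ((a + 1) * r)
        < γ * (a * (N1 - N * W) + N * (a * (a - 1) / 2) + N2)
          + N * ((r - a) * (W + 1 - a))) : False := by
  set F : ℕ → ℚ[X] := fun i => ∑ l ∈ range (d + 1), (l.choose i : ℚ) • phi n c D l with hFdef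
  obtain ⟨r, q, lam, hq, hqn, hind, hF, hlam⟩ := pivots F (d + 1)
  set v : Fin r → ℚ[X] := fun j => F (q j) with hv
  set g : Fin r → ℚ[X] := fun j => ∑ i ∈ range (d + 1), lam i j • (X - C 1) ^ i with hg
  have hindg : Ind r g := ind_g F q lam hqn hind hF
  have hWv : wr r v ≠ 0 := wr_ne_zero r _ v hind le_rfl
  have hWg : wr r g ≠ 0 := wr_ne_zero r _ g hindg le_rfl
  -- the specialisation at z
  have hev : ∑ j, v j * C ((g j).eval z) = ∑ l ∈ range (d + 1), C (z ^ l) * phi n c D l := by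
    have h4 := bilin F (phi n c D) q lam hF (fun i => rfl) LinearMap.id
      ((Polynomial.CAlgHom (R := ℚ) (A := ℚ)).toLinearMap ∘ₗ Polynomial.leval z)
    have h5 : ∀ f : ℚ[X], ((Polynomial.CAlgHom (R := ℚ) (A := ℚ)).toLinearMap ∘ₗ
        Polynomial.leval z) f = C (f.eval z) := fun f => rfl
    simp only [h5, LinearMap.id_coe, id_eq, eval_pow, eval_X] at h4
    rw [show (∑ l ∈ range (d + 1), C (z ^ l) * phi n c D l)
      = ∑ l ∈ range (d + 1), phi n c D l * C (z ^ l) from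
      Finset.sum_congr rfl (fun l _ => mul_comm _ _), ← h4]
  have hu : (X - C β) ^ N2 ∣ ∑ l ∈ range (d + 1), C (z ^ l) * phi n c D l := by
    refine dvd_comb_phi n c D d (fun l => z ^ l) β hβ0 N2 ?_
    intro k hk
    rw [← h2 k hk]
    refine Finset.sum_congr rfl ?_
    intro j _
    refine Finset.sum_congr rfl ?_
    intro l _
    ring
  have hu0 : ∑ l ∈ range (d + 1), C (z ^ l) * phi n c D l ≠ 0 := by
    intro h0
    obtain ⟨i, hi⟩ := h3
    apply hi
    have h4 := congrArg (fun f => f.coeff i) h0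
    simp only [finsetSum_coeff, coeff_C_mul, coeff_zero] at h4
    refine Eq.trans ?_ h4
    refine Finset.sum_congr rfl ?_
    intro l _
    unfold phi
    rw [finsetSum_coeff, Finset.mul_sum]
    refine Finset.sum_congr rfl ?_
    intro j _
    rw [coeff_C_mul_X_pow]
    by_cases h5 : j + n l = i
    · rw [if_pos h5, if_pos h5.symm, mul_comm]
    · rw [if_neg h5, if_neg (fun h => h5 h.symm), mul_zero]
  obtain ⟨j0, hj0⟩ : ∃ j0, (g j0).eval z ≠ 0 := by
    by_contra hcon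
    simp only [not_exists, not_not] at hcon
    apply hu0
    rw [← hev]
    refine Finset.sum_eq_zero ?_
    intro j _
    rw [hcon j, C_0, mul_zero]
  have hr1 : 1 ≤ r := by have := j0.2; omega
  have hrd : r ≤ d + 1 := by
    have h4 := mono_gap hq (r - 1) ⟨0, by omega⟩ ⟨r - 1, by omega⟩ (by simp)
    have h5 := hqn ⟨r - 1, by omega⟩
    omega
  -- divisibilities
  set o : Fin r → ℕ := fun j => if q j ≤ W then N1 - N * q j else 0 with ho
  have hvd : ∀ j, (X - C 1) ^ (o j) ∣ v j := by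
    intro j
    by_cases hj : q j ≤ W
    · simp only [ho, if_pos hj, hv, hFdef]
      have h4 : ∑ l ∈ range (d + 1), (l.choose (q j) : ℚ) • phi n c D l
          = ∑ l ∈ range (d + 1), C ((l.choose (q j) : ℚ)) * phi n c D l := by
        refine Finset.sum_congr rfl ?_
        intro l _
        rw [smul_eq_C_mul]
      rw [h4]
      refine dvd_comb_phi n c D d (fun l => (l.choose (q j) : ℚ)) 1 one_ne_zero _ ?_
      intro k hk
      have h5 := h1 (q j) hj k (by omega)
      rw [← h5]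
      refine Finset.sum_congr rfl ?_
      intro x _
      refine Finset.sum_congr rfl ?_
      intro l _
      rw [one_pow]
      ring
    · simp only [ho, if_neg hj, pow_zero]
      exact one_dvd _
  set A1 := ∑ j, (o j - (r - 1)) with hA1
  set A2 := N2 - (r - 1) with hA2
  set A3 := ∑ j, q j - ∑ j : Fin r, (j : ℕ) with hA3
  have hd1 : (X - C 1) ^ A1 ∣ wr r v := wr_dvd_cols r v 1 o hvd
  have hd2 : (X - C β) ^ A2 ∣ wr r v := by
    refine wr_dvd_comb r v β (fun j => (g j).eval z) j0 hj0 N2 ?_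
    rw [hev]
    exact hu
  have hd3 : (X - C 1) ^ A3 ∣ wr r g := wr_dvd_perm r g 1 q (fun j => g_dvd q lam hlam j)
  have hcop : IsCoprime ((X - C (1 : ℚ)) ^ A1) ((X - C β) ^ A2) := by
    apply IsCoprime.pow
    exact isCoprime_X_sub_C_of_isUnit_sub (by
      rw [isUnit_iff_ne_zero]
      exact sub_ne_zero.2 (fun h => hβ1 h.symm))
  have hd12 : (X - C 1) ^ A1 * (X - C β) ^ A2 ∣ wr r v := hcop.mul_dvd hd1 hd2
  -- the product identity
  obtain ⟨P, hPdeg, hP⟩ := strip_det n c D d γ N lo hi r hlo hhi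
  have hprod := prod_id n c D d γ N r F q lam hF (fun i => rfl)
  have hdet : expand ℚ γ (wr r v) * expand ℚ N (wr r g) = (X ^ lo) ^ r * P := by
    rw [← hP, hprod, Matrix.det_mul, Matrix.det_transpose]
    unfold wr
    rw [AlgHom.map_det, AlgHom.map_det]
  set Q0 : ℚ[X] := expand ℚ γ ((X - C 1) ^ A1 * (X - C β) ^ A2) * expand ℚ N ((X - C 1) ^ A3)
    with hQ0
  have hQdvd : Q0 ∣ (X ^ lo) ^ r * P := by
    rw [← hdet, hQ0]
    exact mul_dvd_mul (expand_dvd' hd12) (expand_dvd' hd3)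
  have hne : (X ^ lo) ^ r * P ≠ 0 := by
    rw [← hdet]
    exact mul_ne_zero ((expand_ne_zero hγ).2 hWv) ((expand_ne_zero hN).2 hWg)
  have hP0 : P ≠ 0 := right_ne_zero_of_mul hne
  have hQ00 : ¬ (X : ℚ[X]) ∣ Q0 := by
    rw [X_dvd_iff, coeff_zero_eq_eval_zero, hQ0, eval_mul, expand_eval, expand_eval,
      zero_pow hγ.ne', zero_pow hN.ne']
    simp only [eval_mul, eval_pow, eval_sub, eval_X, eval_C]
    refine mul_ne_zero (mul_ne_zero (pow_ne_zero _ ?_) (pow_ne_zero _ ?_)) (pow_ne_zero _ ?_)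
    · norm_num
    · simpa using hβ0
    · norm_num
  have hcop2 : IsCoprime ((X ^ lo) ^ r : ℚ[X]) Q0 := by
    apply IsCoprime.pow_left
    apply IsCoprime.pow_left
    exact irreducible_X.coprime_iff_not_dvd.2 hQ00
  have hQP : Q0 ∣ P := hcop2.symm.dvd_of_dvd_mul_left hQdvd
  have hdeg1 : Q0.natDegree ≤ P.natDegree := natDegree_le_of_dvd hQP hP0
  have hdeg2 : Q0.natDegree = γ * (A1 + A2) + N * A3 := by
    have e1 : (X - C (1 : ℚ)) ^ A1 ≠ 0 := pow_ne_zero _ (X_sub_C_ne_zero _)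
    have e2 : (X - C β) ^ A2 ≠ 0 := pow_ne_zero _ (X_sub_C_ne_zero _)
    have e3 : (X - C (1 : ℚ)) ^ A3 ≠ 0 := pow_ne_zero _ (X_sub_C_ne_zero _)
    rw [hQ0, natDegree_mul ((expand_ne_zero hγ).2 (mul_ne_zero e1 e2)) ((expand_ne_zero hN).2 e3),
      natDegree_expand, natDegree_expand, natDegree_mul e1 e2, natDegree_pow, natDegree_pow,
      natDegree_pow, natDegree_X_sub_C, natDegree_X_sub_C]
    ring
  have hfin : γ * (A1 + A2) + N * A3 ≤ r * (hi - lo) := by
    rw [← hdeg2]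
    exact hdeg1.trans hPdeg
  -- counting
  obtain ⟨a, har, ha⟩ := seg hq W
  have haW := seg_le hq W a ha har
  have c1 := count1 hq W N N1 a hNW ha har
  have c2 := count2 hq W a ha har haW
  have c3 := hineq a r haW har hr1 hrd
  have c1' : a * (N1 - N * W) + N * (a * (a - 1) / 2) ≤ A1 + a * r := c1
  have c4 : N2 ≤ A2 + r := by omega
  have c5 : γ * (a * (N1 - N * W) + N * (a * (a - 1) / 2) + N2)
      ≤ γ * ((A1 + a * r) + (A2 + r)) := Nat.mul_le_mul_left _ (by omega)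
  have c6 : N * ((r - a) * (W + 1 - a)) ≤ N * A3 := Nat.mul_le_mul_left _ c2
  have c7 : γ * ((A1 + a * r) + (A2 + r)) = γ * (A1 + A2) + γ * ((a + 1) * r) := by ring
  omega

end Pool.Agent.Lib.AbcW
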