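import Mathlib
import Pool.Agent.Lib.AbcW.Core3
import Pool.Agent.Lib.AbcW.ZeroEst3

/-!
# The transcendental core of index `W`
-/

namespace Pool.Agent.Lib.AbcW

open Polynomial Finset Pool.Agent.AbcH1 Pool.Agent.Lib.AbcQ

/-- **The transcendental core** of index `W`. -/
theorem coreW (m : ℕ → ℕ) (a : ℕ → ℤ) (D d γ N W N1 N2 p B1 B2 V E A e : ℕ) (Z1 Z2 : ℤ)
    (hγ : 0 < γ) (hN : 0 < N) (hp : p.Prime) (hB1 : 0 < B1) (hB2 : 0 < B2) (hne : B1 ≠ B2)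
    (hV : 0 < V) (hZ : IsCoprime Z1 Z2)
    (haA : ∀ l ≤ d, |a l| ≤ (A : ℤ)) (hm1 : ∀ l ≤ d, γ * m l ≤ N * l)
    (hm2 : ∀ l ≤ d, N * l < γ * (m l + 1)) (hmE : m d + D ≤ E)
    (hN12 : N2 ≤ N1) (hNW : N * W ≤ N1) (hN1W : N1 ≤ N * (W + 1) + N2)
    (hSieg : (e + 1) * (∑ q ∈ range (W + 1), (N1 - N * q)) ≤ e * ((D + 1) * (d + 1)))
    (hN1 : 0 < N1) (hB : (p : ℤ) ∣ (B1 : ℤ) - B2) (hY : ((p ^ N : ℕ) : ℤ) ∣ Z1 - Z2)
    (hpB : ¬ p ∣ B1) (hpZ : ¬ (p : ℤ) ∣ Z1)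
    (hrel : ∀ l ≤ d, a l * (B1 : ℤ) ^ (m l) * Z1 ^ l = V * (B2 : ℤ) ^ (m l) * Z2 ^ l)
    (hbig : ((((D + 1) * (d + 1) * 2 ^ (E + d)) ^ e : ℕ) : ℤ) < |Z1| ∨
      ((((D + 1) * (d + 1) * 2 ^ (E + d)) ^ e : ℕ) : ℤ) < |Z2|)
    (hsize : ((D + 1) * (d + 1) * 2 ^ (E + d)) ^ (e + 1) * (max B1 B2) ^ D * A < p ^ (N1 - N2))
    (hineq : ∀ b r, b ≤ W + 1 → b ≤ r → 1 ≤ r → r ≤ d + 1 →
      γ * (r * (D + b + 2)) ≤ γ * (b * (N1 - N * W) + N * (b * (b - 1) / 2) + N2) +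
        N * ((r - b) * (W + 1 - b))) : False := by
  have hpI : Prime (p : ℤ) := Nat.prime_iff_prime_int.1 hp
  have hpdZ : (p : ℤ) ∣ Z1 - Z2 := by
    refine dvd_trans ?_ hY
    exact Int.natCast_dvd_natCast.2 (dvd_pow_self p hN.ne')
  have hpZ2 : ¬ (p : ℤ) ∣ Z2 := by
    intro h
    exact hpZ (by simpa using dvd_add hpdZ h)
  have hcopp : ∀ B : ℤ, ¬ (p : ℤ) ∣ B → IsCoprime (p : ℤ) B := fun B hB =>
    (Prime.coprime_iff_not_dvd hpI).2 hB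
  have hZ1c := hcopp Z1 hpZ
  have hZ2c := hcopp Z2 hpZ2
  have hB1c := hcopp (B1 : ℤ) (fun h => hpB (Int.natCast_dvd_natCast.1 h))
  have hZ10 : Z1 ≠ 0 := by
    intro h
    exact hpZ (h ▸ dvd_zero _)
  have hZ20 : Z2 ≠ 0 := by
    intro h
    exact hpZ2 (h ▸ dvd_zero _)
  set n : ℕ → ℕ := fun l => m (d - l) with hn
  set a' : ℕ → ℤ := fun l => a (d - l) with ha'
  have hmd : ∀ l ≤ d, m l ≤ m d := by
    intro l hl
    have h1 := hm1 l hl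
    have h2 := hm2 d le_rfl
    have h3 : N * l ≤ N * d := Nat.mul_le_mul_left _ hl
    have h4 : γ * m l < γ * (m d + 1) := by omega
    have h5 := Nat.lt_of_mul_lt_mul_left h4
    omega
  have hnE : ∀ l ≤ d, n l + D ≤ E := by
    intro l hl
    have h1 := hmd (d - l) (Nat.sub_le _ _)
    simp only [hn]
    omega
  have haA' : ∀ l ≤ d, |a' l| ≤ (A : ℤ) := fun l _ => haA (d - l) (Nat.sub_le _ _)
  have hrel' : ∀ l ≤ d, a' l * (B1 : ℤ) ^ (n l) * Z1 ^ (d - l)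
      = V * (B2 : ℤ) ^ (n l) * Z2 ^ (d - l) := fun l _ => hrel (d - l) (Nat.sub_le _ _)
  obtain ⟨c, hc0, hcK, hc⟩ := siegelW n D d N N1 W E e hN1 hnE hSieg
  have hI0 : ∀ k < N2, bigJ n D d c B1 B2 a' k = 0 := by
    intro k hk
    refine Int.eq_zero_of_abs_lt_dvd (bigJ_dvdW n D d N W N1 N2 p hN12 hN1W c hc B1 B2 V Z1 Z2 a'
      hB hY hrel' hZ1c hZ2c hB1c k hk) ?_
    refine lt_of_le_of_lt (bigJ_abs_le n D d E hnE c _ hcK B1 B2 A a' haA' k) ?_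
    have h1 : (D + 1) * (d + 1) * (((D + 1) * (d + 1) * 2 ^ (E + d)) ^ e * 2 ^ E) *
        (max B1 B2) ^ D * A
        ≤ ((D + 1) * (d + 1) * 2 ^ (E + d)) ^ (e + 1) * (max B1 B2) ^ D * A := by
      have h24 : (2 : ℕ) ^ E ≤ 2 ^ (E + d) := Nat.pow_le_pow_right (by norm_num) (by omega)
      calc (D + 1) * (d + 1) * (((D + 1) * (d + 1) * 2 ^ (E + d)) ^ e * 2 ^ E) *
            (max B1 B2) ^ D * A
          ≤ (D + 1) * (d + 1) * (((D + 1) * (d + 1) * 2 ^ (E + d)) ^ e * 2 ^ (E + d)) *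
            (max B1 B2) ^ D * A := by gcongr
        _ = _ := by
          rw [pow_succ]
          ring
    exact_mod_cast h1.trans_lt hsize
  set β : ℚ := (B2 : ℚ) / B1 with hβ
  set z : ℚ := (Z1 : ℚ) / Z2 with hz
  have hB1q : (B1 : ℚ) ≠ 0 := by exact_mod_cast hB1.ne'
  have hB2q : (B2 : ℚ) ≠ 0 := by exact_mod_cast hB2.ne'
  have hZ1q : (Z1 : ℚ) ≠ 0 := by exact_mod_cast hZ10
  have hZ2q : (Z2 : ℚ) ≠ 0 := by exact_mod_cast hZ20
  have hVq : (V : ℚ) ≠ 0 := by exact_mod_cast hV.ne'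
  have hβ0 : β ≠ 0 := div_ne_zero hB2q hB1q
  have hβ1 : β ≠ 1 := by
    rw [hβ]
    intro h
    rw [div_eq_one_iff_eq hB1q] at h
    exact hne (by exact_mod_cast h.symm)
  have hzz : z ≠ 0 := div_ne_zero hZ1q hZ2q
  have hline := line_ne_zero n D d _ c hc0 hcK Z1 Z2 hZ10 hZ20 hZ hbig
  have hmid : ∀ l ≤ d, N * d < γ * n l + γ + N * l := by
    intro l hl
    have h1 := hm2 (d - l) (Nat.sub_le _ _)
    have h2 : N * (d - l) + N * l = N * d := by rw [← Nat.mul_add, Nat.sub_add_cancel hl]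
    simp only [hn]
    rw [Nat.mul_add, Nat.mul_one] at h1
    omega
  refine zeroEst3 n (fun j l => ((c j l : ℤ) : ℚ)) D d γ N W N1 N2 (N * d + 1 - γ)
    (N * d + γ * D) β z hγ hN hNW ?_ ?_ hβ0 hβ1 ?_ ?_ hline ?_
  · intro l hl
    have := hmid l hl
    omega
  · intro l hl
    have h1 := hm1 (d - l) (Nat.sub_le _ _)
    have h2 : N * (d - l) + N * l = N * d := by rw [← Nat.mul_add, Nat.sub_add_cancel hl]
    simp only [hn]
    rw [Nat.mul_add]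
    omega
  · intro q hq k hk
    have h1 := hc q hq k hk
    exact_mod_cast h1
  · intro k hk
    have h1 := hI0 k hk
    have h2 : z ^ d * ((bigJ n D d c B1 B2 a' k : ℤ) : ℚ) = 0 := by rw [h1]; simp
    have h3 : z ^ d * ((bigJ n D d c B1 B2 a' k : ℤ) : ℚ)
        = (B1 : ℚ) ^ D * (V : ℚ) *
          ∑ j ∈ range (D + 1), ∑ l ∈ range (d + 1),
            ((c j l : ℤ) : ℚ) * ((j + n l).choose k : ℚ) * β ^ (j + n l) * z ^ l := by
      unfold bigJ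
      push_cast
      rw [Finset.mul_sum, Finset.mul_sum]
      refine Finset.sum_congr rfl ?_
      intro j hj
      rw [Finset.mul_sum, Finset.mul_sum]
      refine Finset.sum_congr rfl ?_
      intro l hl
      rw [Finset.mem_range] at hj hl
      have e1 : (B1 : ℚ) ^ D = (B1 : ℚ) ^ j * (B1 : ℚ) ^ (D - j) := by
        rw [← pow_add]
        congr 1
        omega
      have e3 : (B2 : ℚ) = B1 * β := by rw [hβ, mul_div_cancel₀ _ hB1q]
      have e4 : (Z1 : ℚ) = Z2 * z := by rw [hz, mul_div_cancel₀ _ hZ2q]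
      have e5 : ((a' l : ℤ) : ℚ) * z ^ (d - l) = V * β ^ (n l) := by
        have h5 : ((a' l : ℤ) : ℚ) * (B1 : ℚ) ^ (n l) * (Z1 : ℚ) ^ (d - l)
            = V * (B2 : ℚ) ^ (n l) * (Z2 : ℚ) ^ (d - l) := by
          have h6 := hrel' l (by omega)
          exact_mod_cast h6
        rw [e3, e4, mul_pow, mul_pow] at h5
        have h6 : (B1 : ℚ) ^ (n l) * (Z2 : ℚ) ^ (d - l) ≠ 0 :=
          mul_ne_zero (pow_ne_zero _ hB1q) (pow_ne_zero _ hZ2q)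
        apply mul_left_cancel₀ h6
        linear_combination h5
      have e6 : z ^ d = z ^ (d - l) * z ^ l := by
        rw [← pow_add, Nat.sub_add_cancel (by omega)]
      rw [e1, e3, e6, mul_pow, pow_add]
      linear_combination ((c j l : ℤ) : ℚ) * ((j + n l).choose k : ℚ) *
        ((B1 : ℚ) ^ j * β ^ j * (B1 : ℚ) ^ (D - j)) * z ^ l * e5
    rw [h3] at h2
    exact (mul_eq_zero.1 h2).resolve_left (mul_ne_zero (pow_ne_zero _ hB1q) hVq)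
  · intro b r hb hbr hr hrd
    have h1 := hineq b r hb hbr hr hrd
    have h2 : N * d + γ * D - (N * d + 1 - γ) ≤ γ * D + γ - 1 := by omega
    have h3 : r * (N * d + γ * D - (N * d + 1 - γ)) ≤ r * (γ * D + γ - 1) :=
      Nat.mul_le_mul_left _ h2
    have h4 : r * (γ * D + γ - 1) < r * (γ * D + γ) :=
      Nat.mul_lt_mul_of_pos_left (by omega) (by omega)
    have h5 : r * (γ * D + γ) + γ * ((b + 1) * r) = γ * (r * (D + b + 2)) := by ring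
    omega

end Pool.Agent.Lib.AbcW
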