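import Pool.Agent.Lib.AbcW.Pivot

/-!
# Divisibility of Euler Wronskians, and the count of pivots
-/

set_option autoImplicit false

namespace Pool.Agent.Lib.AbcW

open Polynomial Finset

theorem dvd_of_choose {ι : Type*} (s : Finset ι) (w : ι → ℚ) (e : ι → ℕ) (β : ℚ) (hβ : β ≠ 0)
    (n : ℕ) (h : ∀ k < n, ∑ x ∈ s, w x * ((e x).choose k : ℚ) * β ^ (e x) = 0) :
    (X - C β) ^ n ∣ ∑ x ∈ s, C (w x) * X ^ (e x) := by
  rw [X_sub_C_pow_dvd_iff, X_pow_dvd_iff]
  intro q hq
  rw [← taylor_apply, taylor_coeff]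
  simp only [map_sum, eval_finsetSum]
  have h4 : ∀ x, (eval β) ((hasseDeriv q) (C (w x) * X ^ (e x)))
      = (β ^ q)⁻¹ * (w x * ((e x).choose q : ℚ) * β ^ (e x)) := by
    intro x
    rw [C_mul_X_pow_eq_monomial, hasseDeriv_monomial, eval_monomial]
    rcases lt_or_ge (e x) q with hlt | hge
    · rw [Nat.choose_eq_zero_of_lt hlt]
      simp
    · have h5 : β ^ (e x - q) = β ^ (e x) * (β ^ q)⁻¹ := by
        rw [eq_mul_inv_iff_mul_eq₀ (pow_ne_zero _ hβ), ← pow_add, Nat.sub_add_cancel hge]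
      rw [h5]
      ring
  simp only [h4]
  rw [← Finset.mul_sum, h q hq, mul_zero]

theorem wr_dvd_cols (r : ℕ) (v : Fin r → ℚ[X]) (x : ℚ) (o : Fin r → ℕ)
    (h : ∀ j, (X - C x) ^ (o j) ∣ v j) :
    (X - C x) ^ (∑ j, (o j - (r - 1))) ∣ wr r v := by
  have h1 : ∀ a j : Fin r, ∃ m, (eul ^ (a : ℕ)) (v j) = (X - C x) ^ (o j - (r - 1)) * m := by
    intro a j
    have h2 := eul_pow_dvd (a : ℕ) (h j)
    have h3 : (X - C x) ^ (o j - (r - 1)) ∣ (eul ^ (a : ℕ)) (v j) :=
      (pow_dvd_pow _ (by have := a.2; omega)).trans h2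
    exact h3
  choose m hm using h1
  have h4 : wmat r v = Matrix.of fun a j => (X - C x) ^ (o j - (r - 1)) * (Matrix.of m) a j := by
    ext1 a j
    simp only [wmat, Matrix.of_apply]
    exact hm a j
  unfold wr
  rw [h4, Matrix.det_mul_row, Finset.prod_pow_eq_pow_sum]
  exact dvd_mul_right _ _

theorem wr_dvd_perm (r : ℕ) (v : Fin r → ℚ[X]) (x : ℚ) (o : Fin r → ℕ)
    (h : ∀ j, (X - C x) ^ (o j) ∣ v j) :
    (X - C x) ^ (∑ j, o j - ∑ j : Fin r, (j : ℕ)) ∣ wr r v := by
  unfold wr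
  rw [Matrix.det_apply]
  refine Finset.dvd_sum ?_
  intro σ _
  have h1 : (X - C x) ^ (∑ j, o j - ∑ j : Fin r, (j : ℕ)) ∣ ∏ j, wmat r v (σ j) j := by
    have h2 : ∏ j, (X - C x) ^ (o j - (σ j : ℕ)) ∣ ∏ j, wmat r v (σ j) j := by
      refine Finset.prod_dvd_prod_of_dvd _ _ ?_
      intro j _
      simp only [wmat, Matrix.of_apply]
      exact eul_pow_dvd _ (h j)
    refine dvd_trans ?_ h2
    rw [Finset.prod_pow_eq_pow_sum]
    apply pow_dvd_pow
    have h3 : ∑ j : Fin r, (j : ℕ) = ∑ j : Fin r, ((σ j : Fin r) : ℕ) :=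
      (Equiv.sum_comp σ (fun j : Fin r => (j : ℕ))).symm
    rw [h3, Nat.sub_le_iff_le_add, ← Finset.sum_add_distrib]
    refine Finset.sum_le_sum ?_
    intro j _
    omega
  have h5 : Equiv.Perm.sign σ • ∏ j, wmat r v (σ j) j
      = ((Equiv.Perm.sign σ : ℤ) : ℚ[X]) * ∏ j, wmat r v (σ j) j := by
    rw [Units.smul_def, zsmul_eq_mul]
  rw [h5]
  exact h1.mul_left _

theorem wr_dvd_comb (r : ℕ) (v : Fin r → ℚ[X]) (x : ℚ) (t : Fin r → ℚ) (j0 : Fin r)
    (ht : t j0 ≠ 0) (n : ℕ) (h : (X - C x) ^ n ∣ ∑ j, v j * C (t j)) :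
    (X - C x) ^ (n - (r - 1)) ∣ wr r v := by
  have h1 : ∀ a : Fin r, ∃ m, ∑ i, C (t i) • wmat r v a i = (X - C x) ^ (n - (r - 1)) * m := by
    intro a
    have h2 : ∑ i, C (t i) • wmat r v a i = (eul ^ (a : ℕ)) (∑ j, v j * C (t j)) := by
      rw [map_sum]
      refine Finset.sum_congr rfl ?_
      intro i _
      rw [mul_comm (v i), ← smul_eq_C_mul, map_smul, smul_eq_C_mul]
      simp only [wmat, Matrix.of_apply, smul_eq_mul]
    rw [h2]
    have h3 := eul_pow_dvd (a : ℕ) h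
    have h4 : (X - C x) ^ (n - (r - 1)) ∣ (eul ^ (a : ℕ)) (∑ j, v j * C (t j)) :=
      (pow_dvd_pow _ (by have := a.2; omega)).trans h3
    exact h4
  choose m hm using h1
  have h5 := Matrix.det_updateCol_sum (wmat r v) j0 (fun i => C (t i))
  have h6 : (fun k => ∑ i, C (t i) • wmat r v k i) = (X - C x) ^ (n - (r - 1)) • m := by
    funext k
    rw [Pi.smul_apply, smul_eq_mul]
    exact hm k
  rw [h6, Matrix.det_updateCol_smul] at h5
  have h7 : (X - C x) ^ (n - (r - 1)) ∣ C (t j0) * wr r v := by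
    unfold wr
    rw [← smul_eq_mul (C (t j0)), ← h5]
    exact dvd_mul_right _ _
  have h8 : wr r v = C ((t j0)⁻¹) * (C (t j0) * wr r v) := by
    rw [← mul_assoc, ← C_mul, inv_mul_cancel₀ ht, C_1, one_mul]
  rw [h8]
  exact h7.mul_left _

/-- A strictly increasing sequence grows at least linearly. -/
theorem mono_gap {r : ℕ} {q : Fin r → ℕ} (hq : StrictMono q) (k : ℕ) :
    ∀ i j : Fin r, (j : ℕ) = i + k → q i + k ≤ q j := by
  induction k with
  | zero =>
    intro i j h
    have : i = j := Fin.ext (by omega)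
    rw [this]
    omega
  | succ k ih =>
    intro i j h
    have hj := j.2
    have h1 := ih i ⟨i + k, by omega⟩ rfl
    have h2 : q ⟨i + k, by omega⟩ < q j := hq (Fin.lt_def.2 (by simp only; omega))
    omega

theorem seg {r : ℕ} {q : Fin r → ℕ} (hq : StrictMono q) (W : ℕ) :
    ∃ a ≤ r, ∀ j : Fin r, q j ≤ W ↔ (j : ℕ) < a := by
  classical
  by_cases h : ∃ n, ∃ hn : n < r, W < q ⟨n, hn⟩
  · refine ⟨Nat.find h, ?_, ?_⟩
    · obtain ⟨h1, _⟩ := Nat.find_spec h
      exact h1.le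
    · intro j
      obtain ⟨h1, h2⟩ := Nat.find_spec h
      constructor
      · intro h3
        by_contra h4
        rw [not_lt] at h4
        have h5 : q ⟨Nat.find h, h1⟩ ≤ q j := hq.monotone (Fin.le_def.2 h4)
        omega
      · intro h3
        by_contra h4
        rw [not_le] at h4
        exact Nat.find_min h h3 ⟨j.2, h4⟩
  · refine ⟨r, le_rfl, ?_⟩
    intro j
    refine ⟨fun _ => j.2, fun _ => ?_⟩
    by_contra h4
    rw [not_le] at h4
    exact h ⟨j, j.2, h4⟩

theorem count1 {r : ℕ} {q : Fin r → ℕ} (hq : StrictMono q) (W N N1 a : ℕ) (hNW : N * W ≤ N1)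
    (ha : ∀ j : Fin r, q j ≤ W ↔ (j : ℕ) < a) (har : a ≤ r) :
    a * (N1 - N * W) + N * (a * (a - 1) / 2)
      ≤ ∑ j, ((if q j ≤ W then N1 - N * q j else 0) - (r - 1)) + a * r := by
  have h1 : ∀ j : Fin r, (if (j : ℕ) < a then (N1 - N * W) + N * (a - 1 - j) else 0)
      ≤ ((if q j ≤ W then N1 - N * q j else 0) - (r - 1)) + (if (j : ℕ) < a then r else 0) := by
    intro j
    by_cases hj : (j : ℕ) < a
    · rw [if_pos hj, if_pos hj, if_pos ((ha j).2 hj)]
      have h2 := mono_gap hq (a - 1 - j) j ⟨a - 1, by omega⟩ (by simp only; omega)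
      have h3 : q ⟨a - 1, by omega⟩ ≤ W := (ha _).2 (by simp only; omega)
      have h4 : N * q j + N * (a - 1 - j) ≤ N * W := by
        rw [← Nat.mul_add]
        exact Nat.mul_le_mul_left _ (h2.trans h3)
      have hj2 := j.2
      omega
    · rw [if_neg hj]
      omega
  have h2 := Finset.sum_le_sum (s := Finset.univ) (fun j (_ : j ∈ Finset.univ) => h1 j)
  rw [Finset.sum_add_distrib] at h2
  have h3 : ∑ j : Fin r, (if (j : ℕ) < a then r else 0) = a * r := by
    rw [Fin.sum_univ_eq_sum_range (fun j => if j < a then r else 0) r, ← Finset.sum_filter,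
      Finset.sum_const, smul_eq_mul]
    congr 1
    have : (range r).filter (fun j => j < a) = range a := by
      ext j
      simp only [Finset.mem_filter, Finset.mem_range]
      omega
    rw [this, Finset.card_range]
  have h4 : ∑ j : Fin r, (if (j : ℕ) < a then (N1 - N * W) + N * (a - 1 - j) else 0)
      = a * (N1 - N * W) + N * (a * (a - 1) / 2) := by
    rw [Fin.sum_univ_eq_sum_range (fun j => if j < a then (N1 - N * W) + N * (a - 1 - j) else 0) r,
      ← Finset.sum_filter]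
    have h5 : (range r).filter (fun j => j < a) = range a := by
      ext j
      simp only [Finset.mem_filter, Finset.mem_range]
      omega
    rw [h5, Finset.sum_add_distrib, Finset.sum_const, Finset.card_range, smul_eq_mul,
      ← Finset.mul_sum]
    congr 2
    have h6 := Finset.sum_range_reflect (fun j => j) a
    rw [h6, Finset.sum_range_id]
  rw [h3, h4] at h2
  exact h2

theorem count2 {r : ℕ} {q : Fin r → ℕ} (hq : StrictMono q) (W a : ℕ)
    (ha : ∀ j : Fin r, q j ≤ W ↔ (j : ℕ) < a) (har : a ≤ r) (haW : a ≤ W + 1) :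
    (r - a) * (W + 1 - a) ≤ ∑ j, q j - ∑ j : Fin r, (j : ℕ) := by
  have h1 : ∀ j : Fin r, (j : ℕ) + (if (j : ℕ) < a then 0 else W + 1 - a) ≤ q j := by
    intro j
    have hj2 := j.2
    by_cases hj : (j : ℕ) < a
    · rw [if_pos hj]
      have h2 := mono_gap hq j ⟨0, by omega⟩ j (by simp)
      omega
    · rw [if_neg hj]
      have h2 := mono_gap hq (j - a) ⟨a, by omega⟩ j (by simp only; omega)
      have h3 : ¬ q ⟨a, by omega⟩ ≤ W := by
        rw [ha]
        simp
      omega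
  have h2 := Finset.sum_le_sum (s := Finset.univ) (fun j (_ : j ∈ Finset.univ) => h1 j)
  rw [Finset.sum_add_distrib] at h2
  have h3 : ∑ j : Fin r, (if (j : ℕ) < a then 0 else W + 1 - a) = (r - a) * (W + 1 - a) := by
    rw [Fin.sum_univ_eq_sum_range (fun j => if j < a then 0 else W + 1 - a) r]
    have h4 : ∀ j, (if j < a then 0 else W + 1 - a) = (if ¬ j < a then W + 1 - a else 0) := by
      intro j
      by_cases h : j < a
      · simp [h]
      · simp [h]
    simp only [h4]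
    rw [← Finset.sum_filter, Finset.sum_const, smul_eq_mul]
    congr 1
    have : (range r).filter (fun j => ¬ j < a) = Finset.Ico a r := by
      ext j
      simp only [Finset.mem_filter, Finset.mem_range, Finset.mem_Ico]
      omega
    rw [this, Nat.card_Ico]
  rw [h3] at h2
  omega

theorem seg_le {r : ℕ} {q : Fin r → ℕ} (hq : StrictMono q) (W a : ℕ)
    (ha : ∀ j : Fin r, q j ≤ W ↔ (j : ℕ) < a) (har : a ≤ r) : a ≤ W + 1 := by
  rcases Nat.eq_zero_or_pos a with h | h
  · omega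
  · have h2 := mono_gap hq (a - 1) ⟨0, by omega⟩ ⟨a - 1, by omega⟩ (by simp)
    have h3 : q ⟨a - 1, by omega⟩ ≤ W := (ha _).2 (by simp only; omega)
    omega

end Pool.Agent.Lib.AbcW
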