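import Mathlib

/-!
# The inequality of the zero estimate of index `W`, for the parameters of Theorem P
-/

namespace Pool.Agent.Lib.AbcW

open Finset

/-- the number of conditions -/
theorem sum_cond (N W : ℕ) :
    ∑ q ∈ range (W + 1), (N * W - N * q) = N * (W * (W + 1) / 2) := by
  have h1 : ∀ q ∈ range (W + 1), N * W - N * q = N * (W - q) := fun q _ => by
    rw [Nat.mul_sub]
  rw [Finset.sum_congr rfl h1, ← Finset.mul_sum]
  congr 1
  have h2 := Finset.sum_range_reflect (fun i => i) (W + 1)
  have h3 : ∑ j ∈ range (W + 1), (W + 1 - 1 - j) = ∑ q ∈ range (W + 1), (W - q) := by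
    refine Finset.sum_congr rfl fun q _ => ?_
    omega
  rw [← h3, h2, Finset.sum_range_id, Nat.add_sub_cancel, mul_comm]

theorem two_tri (b : ℕ) : 2 * (b * (b - 1) / 2) = b * (b - 1) := by
  have h : 2 ∣ b * (b - 1) := by
    rcases Nat.eq_zero_or_pos b with h0 | h0
    · rw [h0]; simp
    · have h1 := Nat.even_mul_succ_self (b - 1)
      rw [Nat.sub_add_cancel h0, mul_comm] at h1
      exact h1.two_dvd
  exact Nat.mul_div_cancel' h

theorem two_tri' (W : ℕ) : 2 * (W * (W + 1) / 2) = W * (W + 1) := by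
  have h := two_tri (W + 1)
  rwa [Nat.add_sub_cancel, mul_comm (W + 1) W] at h

/-- The inequality of the zero estimate. `x = W / (2 α)`, `D = ⌊x N / γ⌋`. -/
theorem hineq_aux (N γ D d a W j k : ℕ) (α : ℝ) (hα : 1 ≤ α) (hW : 1 ≤ W) (hj : 64 ≤ j)
    (hk : 4 * α * ((W : ℝ) + 3) ^ 2 * j ≤ k) (hγk : k ≤ γ) (hNγ : 100 * k * γ ≤ N)
    (ha1 : N < j * a) (ha2 : j * a ≤ 2 * N)
    (hD1 : (D : ℝ) * γ ≤ W / (2 * α) * N) (hD2 : (W : ℝ) / (2 * α) * N ≤ (D + 1) * γ)
    (hd1 : d * (D + 1) ≤ N * (W * (W + 1) / 2) + a) (hDa : D + 1 ≤ a)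
    (hda : (d + 1) * (W + 2) ≤ a) (b r : ℕ) (hbW : b ≤ W + 1) (hbr : b ≤ r) (_hr1 : 1 ≤ r)
    (hrd : r ≤ d + 1) :
    γ * (r * (D + b + 2)) ≤ γ * (b * (N * W - N * W) + N * (b * (b - 1) / 2) + 3 * a) +
        N * ((r - b) * (W + 1 - b)) := by
  have hty := two_tri' W
  set y0 : ℕ := W * (W + 1) / 2 with hy0
  rcases Nat.lt_or_ge W b with hb | hb
  · -- `b = W + 1`
    have hbe : b = W + 1 := by omega
    subst hbe
    have h1 : (W + 1) * (W + 1 - 1) / 2 = y0 := by
      rw [hy0, Nat.add_sub_cancel, mul_comm]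
    rw [h1]
    have h2 : r * (D + (W + 1) + 2) ≤ N * y0 + 3 * a := by
      calc r * (D + (W + 1) + 2) ≤ (d + 1) * (D + (W + 1) + 2) := Nat.mul_le_mul_right _ hrd
        _ = d * (D + 1) + (D + 1) + (d + 1) * (W + 2) := by ring
        _ ≤ (N * y0 + a) + a + a := by gcongr
        _ = N * y0 + 3 * a := by ring
    have h3 : r * (D + (W + 1) + 2) ≤ (W + 1) * (N * W - N * W) + N * y0 + 3 * a := by
      rw [Nat.sub_self, Nat.mul_zero, Nat.zero_add]
      exact h2
    exact (Nat.mul_le_mul_left γ h3).trans (Nat.le_add_right _ _)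
  · -- `b = W + 1 - c`, `1 ≤ c`
    have ht := two_tri b
    set T : ℕ := b * (b - 1) / 2 with hT
    obtain ⟨c, hc⟩ : ∃ c, W + 1 = b + c := ⟨W + 1 - b, by omega⟩
    have hc1 : 1 ≤ c := by omega
    have hWb : W + 1 - b = c := by omega
    rw [hWb, Nat.sub_self, Nat.mul_zero, Nat.zero_add]
    obtain ⟨r', hr'⟩ : ∃ r', r = b + r' := ⟨r - b, by omega⟩
    have hrb : r - b = r' := by omega
    rw [hrb]
    -- reals
    have hγ0 : 0 < γ := by
      rcases Nat.eq_zero_or_pos γ with h0 | h0
      · exfalso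
        rw [h0] at hγk
        have h1 : k = 0 := by omega
        rw [h1] at hk
        have h2 : (1 : ℝ) ≤ 4 * α * ((W : ℝ) + 3) ^ 2 * j := by
          have e1 : (64 : ℝ) ≤ j := by exact_mod_cast hj
          have e2 : (0 : ℝ) ≤ W := Nat.cast_nonneg _
          have e3 : (1 : ℝ) ≤ ((W : ℝ) + 3) ^ 2 := by nlinarith
          calc (1 : ℝ) = 1 * 1 * 1 * 1 := by norm_num
            _ ≤ 4 * α * ((W : ℝ) + 3) ^ 2 * j := by
              gcongr
              · linarith
              · linarith
        push_cast at hk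
        linarith
      · exact h0
    have hγR : (0 : ℝ) < γ := by exact_mod_cast hγ0
    have hα0 : 0 < α := by linarith
    have hWR : (1 : ℝ) ≤ W := by exact_mod_cast hW
    have hjR : (64 : ℝ) ≤ j := by exact_mod_cast hj
    have hj0 : (0 : ℝ) < j := by linarith
    have hγkR : (k : ℝ) ≤ γ := by exact_mod_cast hγk
    have hNγR : 100 * (k : ℝ) * γ ≤ N := by exact_mod_cast hNγ
    have ha1R : (N : ℝ) ≤ j * a := by exact_mod_cast ha1.le
    have ha2R : (j : ℝ) * a ≤ 2 * N := by exact_mod_cast ha2
    have hcR : (1 : ℝ) ≤ c := by exact_mod_cast hc1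
    have hbR : (0 : ℝ) ≤ b := Nat.cast_nonneg _
    have hbcR : (W : ℝ) + 1 = b + c := by exact_mod_cast hc
    have hrR : (r : ℝ) = b + r' := by exact_mod_cast hr'
    have hr0 : (0 : ℝ) ≤ r := Nat.cast_nonneg _
    have hyR : 2 * (y0 : ℝ) = W * (W + 1) := by exact_mod_cast hty
    have htR : 2 * (T : ℝ) = b * (b - 1) := by
      rcases Nat.eq_zero_or_pos b with h0 | h0
      · have hT0 : T = 0 := by rw [hT, h0]
        rw [h0, hT0]
        simp
      · have h1 : ((b - 1 : ℕ) : ℝ) = b - 1 := by
          rw [Nat.cast_sub h0]; simp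
        have h2 : ((2 * T : ℕ) : ℝ) = ((b * (b - 1) : ℕ) : ℝ) := by exact_mod_cast ht
        push_cast at h2
        rw [h1] at h2
        exact h2
    have hkpos : (0 : ℝ) < k := by
      refine lt_of_lt_of_le ?_ hk
      positivity
    have hNR : (0 : ℝ) < N := lt_of_lt_of_le (by positivity) hNγR
    set x : ℝ := (W : ℝ) / (2 * α) with hx
    have hx0 : 0 < x := by positivity
    have hxW : x ≤ W / 2 := by
      rw [hx]
      gcongr
      linarith
    have hαx : x * (2 * α) = W := by
      rw [hx, div_mul_cancel₀]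
      positivity
    -- `ε = (W + 2) / (100 k)`
    set ε : ℝ := ((W : ℝ) + 2) / (100 * k) with hε
    have hε0 : 0 < ε := by positivity
    have hεγ : (γ : ℝ) * (W + 2) ≤ N * ε := by
      rw [hε, mul_div_assoc', le_div_iff₀ (by positivity)]
      have := mul_le_mul_of_nonneg_right hNγR (by positivity : (0 : ℝ) ≤ W + 2)
      linarith
    -- `γ ≥ 256 α (W + 3)^2`
    have hγbig : 4 * α * ((W : ℝ) + 3) ^ 2 * j ≤ γ := hk.trans hγkR
    have hW3 : (0 : ℝ) < ((W : ℝ) + 3) ^ 2 := by positivity
    have hαε : α * ((W : ℝ) + 1) * ε ≤ 1 / 100 := by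
      rw [hε, mul_div_assoc', div_le_iff₀ (by positivity)]
      have h1 : α * ((W : ℝ) + 1) * (W + 2) ≤ α * (W + 3) ^ 2 := by
        rw [mul_assoc]
        apply mul_le_mul_of_nonneg_left _ hα0.le
        nlinarith
      have h2 : α * ((W : ℝ) + 3) ^ 2 ≤ k := by
        refine le_trans ?_ hk
        have h3 : α * ((W : ℝ) + 3) ^ 2 * 1 ≤ α * ((W : ℝ) + 3) ^ 2 * (4 * j) := by
          apply mul_le_mul_of_nonneg_left _ (by positivity)
          linarith
        linarith
      linarith
    have hε1 : ε ≤ 1 / 200 := by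
      have h1 : 2 * ε ≤ α * ((W : ℝ) + 1) * ε := by
        apply mul_le_mul_of_nonneg_right _ hε0.le
        nlinarith
      linarith
    -- the main real inequality
    have hmain : (r : ℝ) * (x + ε - c) + b * c ≤ γ * T + 3 * γ / j := by
      have hbc : (b : ℝ) * c ≤ ((W : ℝ) + 3) ^ 2 := by
        have h1 : (b : ℝ) ≤ W + 3 := by linarith
        have h2 : (c : ℝ) ≤ W + 3 := by linarith
        calc (b : ℝ) * c ≤ (W + 3) * (W + 3) := mul_le_mul h1 h2 (by linarith) (by positivity)
          _ = _ := by ring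
      have hT0 : (0 : ℝ) ≤ T := Nat.cast_nonneg _
      have hjγ : 4 * ((W : ℝ) + 3) ^ 2 ≤ γ / j := by
        rw [le_div_iff₀ hj0]
        refine le_trans ?_ hγbig
        apply mul_le_mul_of_nonneg_right _ hj0.le
        nlinarith
      rcases le_total (x + ε) c with h1 | h1
      · have h2 : (r : ℝ) * (x + ε - c) ≤ 0 := mul_nonpos_of_nonneg_of_nonpos hr0 (by linarith)
        have h3 : 0 ≤ (γ : ℝ) * T := by positivity
        have h4 : 3 * (γ : ℝ) / j = 3 * (γ / j) := by ring
        rw [h4]
        linarith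
      · -- `r x ≤ γ (y0 + 2 / j) + x`
        have hrx : (r : ℝ) * x ≤ γ * (y0 + 2 / j) + x := by
          have e1 : (r : ℝ) ≤ d + 1 := by exact_mod_cast hrd
          have e2 : (d : ℝ) * (D + 1) ≤ N * y0 + a := by exact_mod_cast hd1
          have e3 : (d : ℝ) * x * N ≤ γ * (y0 + 2 / j) * N := by
            calc (d : ℝ) * x * N = d * (x * N) := by ring
              _ ≤ d * ((D + 1) * γ) := by gcongr
              _ = γ * (d * (D + 1)) := by ring
              _ ≤ γ * (N * y0 + a) := by gcongr
              _ ≤ γ * (N * y0 + 2 * N / j) := by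
                  gcongr
                  rw [le_div_iff₀ hj0]
                  linarith
              _ = _ := by ring
          have e4 : (d : ℝ) * x ≤ γ * (y0 + 2 / j) := le_of_mul_le_mul_right e3 hNR
          calc (r : ℝ) * x ≤ (d + 1) * x := by gcongr
            _ = d * x + x := by ring
            _ ≤ _ := by linarith
        set v : ℝ := (c - ε) / x with hv
        have hxv : x * v = c - ε := by
          rw [hv, mul_div_cancel₀]
          exact hx0.ne'
        have hv2 : v = 2 * α * (c - ε) / W := by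
          rw [hv, hx]
          field_simp
        have hv1 : v ≤ 1 := by
          rw [hv, div_le_iff₀ hx0]
          linarith
        have hv0 : 0 ≤ v := by
          rw [hv]
          apply div_nonneg _ hx0.le
          linarith
        have hfac : (r : ℝ) * (x + ε - c) = (r * x) * (1 - v) := by
          have : x + ε - c = x * (1 - v) := by
            rw [mul_sub, hxv]; ring
          rw [this]; ring
        have h2 : (r : ℝ) * (x + ε - c) ≤ (γ * (y0 + 2 / j) + x) * (1 - v) := by
          rw [hfac]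
          exact mul_le_mul_of_nonneg_right hrx (by linarith)
        -- `y0 (1 - v) ≤ y0 - (W + 1) c + 1 / 100`
        have h3 : (y0 : ℝ) * (1 - v) ≤ y0 - (W + 1) * c + 1 / 100 := by
          have e1 : (y0 : ℝ) * v = α * (W + 1) * (c - ε) := by
            have : (y0 : ℝ) = W * (W + 1) / 2 := by linarith
            rw [this, hv2]
            field_simp
          have e2 : ((W : ℝ) + 1) * c ≤ α * (W + 1) * c := by
            have : 1 * (((W : ℝ) + 1) * c) ≤ α * ((W + 1) * c) :=
              mul_le_mul_of_nonneg_right hα (by positivity)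
            linarith
          have e3 : (y0 : ℝ) * (1 - v) = y0 - α * (W + 1) * c + α * (W + 1) * ε := by
            rw [mul_sub, e1]; ring
          rw [e3]
          linarith
        have h4 : (2 / (j : ℝ)) * (1 - v) ≤ 2 / j := by
          have : (0 : ℝ) ≤ 2 / j := by positivity
          have e1 : (2 / (j : ℝ)) * (1 - v) ≤ (2 / (j : ℝ)) * 1 :=
            mul_le_mul_of_nonneg_left (by linarith) this
          linarith
        have h5 : x * (1 - v) ≤ x := by
          have : x * (1 - v) ≤ x * 1 := mul_le_mul_of_nonneg_left (by linarith) hx0.le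
          linarith
        have h6 : (γ * (y0 + 2 / j) + x) * (1 - v) ≤
            γ * (y0 - (W + 1) * c + 1 / 100) + γ * (2 / j) + x := by
          have e1 := mul_le_mul_of_nonneg_left h3 hγR.le
          have e2 := mul_le_mul_of_nonneg_left h4 hγR.le
          have e3 : ((γ : ℝ) * (y0 + 2 / j) + x) * (1 - v) =
            γ * (y0 * (1 - v)) + γ * (2 / j * (1 - v)) + x * (1 - v) := by ring
          rw [e3]
          linarith
        -- `T = y0 - (W + 1) c + c (c + 1) / 2`
        have h7 : (T : ℝ) = y0 - (W + 1) * c + c * (c + 1) / 2 := by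
          have e1 : (b : ℝ) = W + 1 - c := by linarith
          have e2 : 2 * (T : ℝ) = (W + 1 - c) * (W + 1 - c - 1) := by rw [htR, e1]
          have e3 : 2 * (T : ℝ) = W * (W + 1) - 2 * ((W + 1) * c) + c * (c + 1) := by
            rw [e2]; ring
          linarith
        have h8 : (1 : ℝ) ≤ c * (c + 1) / 2 := by nlinarith
        have h9 : (γ : ℝ) * (y0 - (W + 1) * c + 1) ≤ γ * T := by
          apply mul_le_mul_of_nonneg_left _ hγR.le
          rw [h7]; linarith
        have h10 : 256 * ((W : ℝ) + 3) ^ 2 ≤ γ := by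
          have e1 : 4 * ((W : ℝ) + 3) ^ 2 * 64 ≤ 4 * ((W : ℝ) + 3) ^ 2 * j := by gcongr
          have e2 := (le_div_iff₀ hj0).1 hjγ
          linarith
        have h11 : x ≤ ((W : ℝ) + 3) ^ 2 := by nlinarith
        have h12 : (γ : ℝ) * (2 / j) ≤ 3 * γ / j := by
          have e1 : (γ : ℝ) * (2 / j) = 2 * (γ / j) := by ring
          have e2 : 3 * (γ : ℝ) / j = 3 * (γ / j) := by ring
          have e3 : 0 ≤ (γ : ℝ) / j := by positivity
          rw [e1, e2]
          linarith
        have e1 : (γ : ℝ) * (y0 - (W + 1) * c + 1 / 100) =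
            γ * (y0 - (W + 1) * c + 1) - 99 / 100 * γ := by ring
        linarith
    -- conclusion
    have hfin : (γ : ℝ) * (r * (D + b + 2)) ≤ γ * (N * T + 3 * a) + N * (r' * c) := by
      have e1 : (γ : ℝ) * (r * (D + b + 2)) ≤ r * (N * (x + ε)) := by
        have e2 : (γ : ℝ) * (b + 2) ≤ N * ε := by
          refine le_trans ?_ hεγ
          apply mul_le_mul_of_nonneg_left _ hγR.le
          have : (b : ℝ) ≤ W := by exact_mod_cast hb
          linarith
        have e3 : (γ : ℝ) * (D + b + 2) ≤ N * (x + ε) := by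
          have : (γ : ℝ) * (D + b + 2) = D * γ + γ * (b + 2) := by ring
          rw [this]
          have : (N : ℝ) * (x + ε) = x * N + N * ε := by ring
          rw [this]
          linarith
        calc (γ : ℝ) * (r * (D + b + 2)) = r * (γ * (D + b + 2)) := by ring
          _ ≤ r * (N * (x + ε)) := mul_le_mul_of_nonneg_left e3 hr0
      have e4 : (N : ℝ) * ((r : ℝ) * (x + ε - c) + b * c) ≤ N * (γ * T + 3 * γ / j) :=
        mul_le_mul_of_nonneg_left hmain hNR.le
      have e5 : (N : ℝ) * (3 * γ / j) ≤ γ * (3 * a) := by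
        have : (N : ℝ) * (3 * γ / j) = 3 * γ * (N / j) := by ring
        rw [this]
        have e6 : (N : ℝ) / j ≤ a := by
          rw [div_le_iff₀ hj0]
          linarith
        have e7 : 3 * (γ : ℝ) * (N / j) ≤ 3 * γ * a :=
          mul_le_mul_of_nonneg_left e6 (by positivity)
        linarith
      have e8 : (r' : ℝ) = r - b := by linarith
      rw [e8]
      have e9 : (γ : ℝ) * (N * T + 3 * a) + N * ((r - b) * c) =
          N * (γ * T) + γ * (3 * a) + N * (r * c) - N * (b * c) := by ring
      rw [e9]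
      have e10 : (N : ℝ) * (r * (x + ε - c) + b * c) =
          r * (N * (x + ε)) - N * (r * c) + N * (b * c) := by ring
      have e11 : (N : ℝ) * (γ * T + 3 * γ / j) = N * (γ * T) + N * (3 * γ / j) := by ring
      linarith
    exact_mod_cast hfin

end Pool.Agent.Lib.AbcW
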