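import Pool.Agent.Lib.AbcW.Wron

/-!
# Pivots and the rank factorisation

The Taylor coefficients `F 0, F 1, …` of a polynomial in two variables at `Y = 1` are expressed
through the pivots among them; this gives a factorisation with vanishing orders at `Y = 1`.
-/

set_option autoImplicit false

namespace Pool.Agent.Lib.AbcW

open Polynomial Finset

theorem pivots (F : ℕ → ℚ[X]) (n : ℕ) : ∃ r : ℕ, ∃ q : Fin r → ℕ, ∃ lam : ℕ → Fin r → ℚ,
    StrictMono q ∧ (∀ j, q j < n) ∧ Ind r (fun j => F (q j)) ∧
    (∀ i < n, F i = ∑ j, lam i j • F (q j)) ∧ (∀ i < n, ∀ j, i < q j → lam i j = 0) := by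
  induction n with
  | zero =>
    refine ⟨0, fun _ => 0, fun _ _ => 0, ?_, ?_, ?_, ?_, ?_⟩
    · intro a; exact a.elim0
    · intro a; exact a.elim0
    · intro t _ j; exact j.elim0
    · intro i hi; omega
    · intro i hi; omega
  | succ n ih =>
    obtain ⟨r, q, lam, hq, hqn, hind, hF, hlam⟩ := ih
    by_cases h : ∃ t : Fin r → ℚ, F n = ∑ j, t j • F (q j)
    · obtain ⟨t, ht⟩ := h
      refine ⟨r, q, Function.update lam n t, hq, fun j => (hqn j).trans (Nat.lt_succ_self n), hind,
        ?_, ?_⟩
      · intro i hi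
        rcases Nat.lt_succ_iff_lt_or_eq.1 hi with h1 | h1
        · rw [Function.update_of_ne h1.ne]
          exact hF i h1
        · rw [h1, Function.update_self]
          exact ht
      · intro i hi j hij
        rcases Nat.lt_succ_iff_lt_or_eq.1 hi with h1 | h1
        · rw [Function.update_of_ne h1.ne]
          exact hlam i h1 j hij
        · have := hqn j
          omega
    · refine ⟨r + 1, Fin.snoc q n, Function.update (fun i => Fin.snoc (lam i) 0) n
        (Fin.snoc (fun _ => 0) 1), ?_, ?_, ?_, ?_, ?_⟩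
      · intro i j hij
        induction j using Fin.lastCases with
        | last =>
          induction i using Fin.lastCases with
          | last => exact absurd hij (lt_irrefl _)
          | cast i =>
            rw [Fin.snoc_castSucc, Fin.snoc_last]
            exact hqn i
        | cast j =>
          induction i using Fin.lastCases with
          | last =>
            exfalso
            have h1 := Fin.lt_def.1 hij
            have h2 := j.2
            simp only [Fin.val_last, Fin.val_castSucc] at h1
            omega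
          | cast i =>
            rw [Fin.snoc_castSucc, Fin.snoc_castSucc]
            exact hq (by simpa using hij)
      · intro j
        induction j using Fin.lastCases with
        | last => rw [Fin.snoc_last]; omega
        | cast j => rw [Fin.snoc_castSucc]; exact (hqn j).trans (Nat.lt_succ_self n)
      · intro t ht
        rw [Fin.sum_univ_castSucc] at ht
        simp only [Fin.snoc_castSucc, Fin.snoc_last] at ht
        have h1 : t (Fin.last r) = 0 := by
          by_contra h0
          apply h
          refine ⟨fun j => -(t (Fin.last r))⁻¹ * t j.castSucc, ?_⟩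
          have h2 : t (Fin.last r) • F n = -∑ j : Fin r, t j.castSucc • F (q j) := by
            rw [eq_neg_iff_add_eq_zero, add_comm]
            exact ht
          have h3 : F n = (t (Fin.last r))⁻¹ • (t (Fin.last r) • F n) := by
            rw [smul_smul, inv_mul_cancel₀ h0, one_smul]
          rw [h3, h2, smul_neg, Finset.smul_sum, ← Finset.sum_neg_distrib]
          refine Finset.sum_congr rfl ?_
          intro j _
          simp only [smul_smul, neg_mul, neg_smul]
        rw [h1, zero_smul, add_zero] at ht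
        have h4 := hind (fun j => t j.castSucc) ht
        intro j
        induction j using Fin.lastCases with
        | last => exact h1
        | cast j => exact h4 j
      · intro i hi
        rw [Fin.sum_univ_castSucc]
        simp only [Fin.snoc_castSucc, Fin.snoc_last]
        rcases Nat.lt_succ_iff_lt_or_eq.1 hi with h1 | h1
        · rw [Function.update_of_ne h1.ne]
          simp only [Fin.snoc_castSucc, Fin.snoc_last, zero_smul, add_zero]
          exact hF i h1
        · rw [h1, Function.update_self]
          simp only [Fin.snoc_castSucc, Fin.snoc_last, zero_smul, one_smul,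
            Finset.sum_const_zero, zero_add]
      · intro i hi j hij
        induction j using Fin.lastCases with
        | last =>
          rw [Fin.snoc_last] at hij
          rw [Function.update_of_ne hij.ne, Fin.snoc_last]
        | cast j =>
          rw [Fin.snoc_castSucc] at hij
          rcases Nat.lt_succ_iff_lt_or_eq.1 hi with h1 | h1
          · rw [Function.update_of_ne h1.ne, Fin.snoc_castSucc]
            exact hlam i h1 j hij
          · have := hqn j
            omega

theorem X_pow_eq_sum (d l : ℕ) (hl : l ≤ d) :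
    (X ^ l : ℚ[X]) = ∑ i ∈ range (d + 1), (l.choose i : ℚ) • (X - C 1) ^ i := by
  have h1 : (X ^ l : ℚ[X]) = ((X - C 1) + 1) ^ l := by
    rw [map_one, sub_add_cancel]
  rw [h1, add_pow]
  rw [← Finset.sum_subset (s₁ := range (l + 1)) (s₂ := range (d + 1))]
  · refine Finset.sum_congr rfl ?_
    intro i _
    rw [one_pow, mul_one, smul_eq_C_mul, mul_comm, map_natCast]
  · intro i hi
    rw [Finset.mem_range] at hi ⊢
    omega
  · intro i _ hi
    rw [Finset.mem_range, not_lt] at hi
    rw [Nat.choose_eq_zero_of_lt (by omega)]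
    simp

theorem bilin {r d : ℕ} (F φ : ℕ → ℚ[X]) (q : Fin r → ℕ) (lam : ℕ → Fin r → ℚ)
    (hF : ∀ i < d + 1, F i = ∑ j, lam i j • F (q j))
    (hFφ : ∀ i, F i = ∑ l ∈ range (d + 1), (l.choose i : ℚ) • φ l)
    (L1 L2 : ℚ[X] →ₗ[ℚ] ℚ[X]) :
    ∑ j, L1 (F (q j)) * L2 (∑ i ∈ range (d + 1), lam i j • (X - C 1) ^ i)
      = ∑ l ∈ range (d + 1), L1 (φ l) * L2 (X ^ l) := by
  have h1 : ∀ j : Fin r, L1 (F (q j)) * L2 (∑ i ∈ range (d + 1), lam i j • (X - C 1) ^ i)
      = ∑ i ∈ range (d + 1), L1 (lam i j • F (q j)) * L2 ((X - C 1) ^ i) := by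
    intro j
    rw [map_sum, Finset.mul_sum]
    refine Finset.sum_congr rfl ?_
    intro i _
    rw [map_smul, map_smul, mul_smul_comm, smul_mul_assoc]
  simp only [h1]
  rw [Finset.sum_comm]
  have h2 : ∀ i ∈ range (d + 1), ∑ j, L1 (lam i j • F (q j)) * L2 ((X - C 1) ^ i)
      = ∑ l ∈ range (d + 1), L1 (φ l) * L2 ((l.choose i : ℚ) • (X - C 1) ^ i) := by
    intro i hi
    rw [← Finset.sum_mul, ← map_sum, ← hF i (Finset.mem_range.1 hi), hFφ i, map_sum,
      Finset.sum_mul]
    refine Finset.sum_congr rfl ?_
    intro l _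
    rw [map_smul, map_smul, mul_smul_comm, smul_mul_assoc]
  rw [Finset.sum_congr rfl h2, Finset.sum_comm]
  refine Finset.sum_congr rfl ?_
  intro l hl
  rw [← Finset.mul_sum, ← map_sum, ← X_pow_eq_sum d l (by rw [Finset.mem_range] at hl; omega)]

theorem sum_sub_one_pow_eq_zero (n : ℕ) (s : ℕ → ℚ)
    (h : ∑ i ∈ range n, s i • (X - C 1 : ℚ[X]) ^ i = 0) : ∀ i < n, s i = 0 := by
  intro i hi
  have h1 : (∑ i ∈ range n, s i • (X - C 1 : ℚ[X]) ^ i).comp (X + C 1) = 0 := by
    rw [h, zero_comp]
  have h2 : (∑ i ∈ range n, s i • (X - C 1 : ℚ[X]) ^ i).comp (X + C 1)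
      = ∑ i ∈ range n, C (s i) * X ^ i := by
    rw [Polynomial.sum_comp]
    refine Finset.sum_congr rfl ?_
    intro k _
    rw [smul_comp, pow_comp, sub_comp, X_comp, C_comp, add_sub_cancel_right, smul_eq_C_mul]
  rw [h2] at h1
  have h3 := congrArg (fun f => f.coeff i) h1
  simp only [finsetSum_coeff, coeff_C_mul_X_pow, coeff_zero] at h3
  rw [Finset.sum_ite_eq] at h3
  rwa [if_pos (Finset.mem_range.2 hi)] at h3

theorem ind_g {r d : ℕ} (F : ℕ → ℚ[X]) (q : Fin r → ℕ) (lam : ℕ → Fin r → ℚ)
    (hqn : ∀ j, q j < d + 1) (hind : Ind r (fun j => F (q j)))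
    (hF : ∀ i < d + 1, F i = ∑ j, lam i j • F (q j)) :
    Ind r (fun j => ∑ i ∈ range (d + 1), lam i j • (X - C 1) ^ i) := by
  intro t ht j'
  have h1 : ∑ j, t j • ∑ i ∈ range (d + 1), lam i j • (X - C 1 : ℚ[X]) ^ i
      = ∑ i ∈ range (d + 1), (∑ j, t j * lam i j) • (X - C 1 : ℚ[X]) ^ i := by
    simp only [Finset.smul_sum, smul_smul, Finset.sum_smul]
    rw [Finset.sum_comm]
  rw [h1] at ht
  have h2 := sum_sub_one_pow_eq_zero (d + 1) _ ht (q j') (hqn j')
  -- lam at pivots
  have h3 : ∀ j, lam (q j') j = if j = j' then 1 else 0 := by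
    have h4 := hF (q j') (hqn j')
    have h5 : ∑ j, (lam (q j') j - (if j = j' then 1 else 0)) • F (q j) = 0 := by
      simp only [sub_smul, Finset.sum_sub_distrib]
      rw [← h4]
      simp
    have h6 := hind _ h5
    intro j
    have h7 := h6 j
    linarith
  simp only [h3] at h2
  simpa using h2

theorem g_dvd {r d : ℕ} (q : Fin r → ℕ) (lam : ℕ → Fin r → ℚ)
    (hlam : ∀ i < d + 1, ∀ j, i < q j → lam i j = 0) (j : Fin r) :
    (X - C 1 : ℚ[X]) ^ (q j) ∣ ∑ i ∈ range (d + 1), lam i j • (X - C 1) ^ i := by
  refine Finset.dvd_sum ?_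
  intro i hi
  rw [Finset.mem_range] at hi
  rcases Nat.lt_or_ge i (q j) with h | h
  · rw [hlam i hi j h, zero_smul]
    exact dvd_zero _
  · rw [smul_eq_C_mul]
    exact (pow_dvd_pow _ h).mul_left _

end Pool.Agent.Lib.AbcW
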