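import Mathlib

/-!
# The real inequalities behind Theorem P of index `W`
-/

namespace Pool.Agent.Lib.AbcW

/-- The size inequality. -/
theorem size_aux (N W j k γ D a Q w md ee ω κ α lam L La lB lV lH lU lBp lBn : ℝ)
    (hκ : 0 < κ) (hω : 0 < ω) (hω2 : ω ≤ 1 / 2) (hα : 1 ≤ α) (hW : 1 ≤ W)
    (hκω : α * (W + 1) * κ + ω ≤ W / 2) (hακ : α * κ * 2 ≤ 1) (hκ2 : κ * 2 ≤ 1)
    (hj0 : 0 < j) (hj : 64 ≤ ω * j) (hk : 4 * α * (W + 3) ^ 2 * j ≤ k)
    (hN0 : 0 < N) (hlam0 : 0 < lam) (hγ : 1 ≤ γ) (hNγ : 100 * k * γ ≤ N)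
    (hD0 : 0 ≤ D) (ha0 : 0 ≤ a) (hw0 : 0 ≤ w) (hmd0 : 0 ≤ md) (hLa0 : 0 ≤ La)
    (hD1 : D * γ ≤ W / (2 * α) * N) (hDk : 2 * (D * k) ≤ W * N) (ha3 : j * a ≤ 2 * N)
    (hmd : md ≤ α * (W + 1) * N + 4 * α / (W * j) * N) (hwQ : w * Q ≤ 2 * α * (W + 1) * N)
    (hLQ : L ≤ Q * La) (hLa : La = ω / (64 * α * (W + 1)) * lam) (hLaω : La ≤ ω / 128 * lam)
    (hU : (ee + 1) * lU ≤ ω * (N * lam) / 8) (hB : lB ≤ κ * lam + α * (γ * lam) + La)
    (hV : lV = lBp + lBn + w * L) (hBp : lBp ≤ α * (γ * lam) + La)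
    (hBn : lBn ≤ α * (γ * lam) + La) (hH : lH ≤ κ * lam) :
    (ee + 1) * lU + D * lB + (2 * lV + md * lH) < (N * W - 3 * a) * lam := by
  have hα0 : 0 < α := by linarith
  have hW0 : 0 < W := by linarith
  set x : ℝ := W / (2 * α) with hx
  have hαx : α * x = W / 2 := by
    rw [hx]
    field_simp
  have hW3 : (16 : ℝ) ≤ (W + 3) ^ 2 := by nlinarith only [hW]
  set Ω : ℝ := N * lam with hΩ
  have hΩ0 : 0 < Ω := by positivity
  have hωΩ0 : 0 < ω * Ω := by positivity
  have hωk : 256 * α * (W + 3) ^ 2 ≤ ω * k := by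
    have h1 : ω * (4 * α * (W + 3) ^ 2 * j) ≤ ω * k := mul_le_mul_of_nonneg_left hk hω.le
    have h2 : 4 * α * (W + 3) ^ 2 * 64 ≤ 4 * α * (W + 3) ^ 2 * (ω * j) := by
      apply mul_le_mul_of_nonneg_left hj (by positivity)
    have h3 : ω * (4 * α * (W + 3) ^ 2 * j) = 4 * α * (W + 3) ^ 2 * (ω * j) := by
      ring
    linarith only [h1, h2, h3]
  have hDlam : 64 * (D * lam) ≤ ω * Ω := by
    have h1 : 128 * W ≤ ω * k := by
      refine le_trans ?_ hωk
      have e1 : 256 * 1 * (W + 3) ^ 2 ≤ 256 * α * (W + 3) ^ 2 := by gcongr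
      nlinarith only [e1, hW]
    have h2 : 128 * W * (D * lam) ≤ ω * k * (D * lam) :=
      mul_le_mul_of_nonneg_right h1 (by positivity)
    have h3 : ω * lam * (2 * (D * k)) ≤ ω * lam * (W * N) :=
      mul_le_mul_of_nonneg_left hDk (by positivity)
    have h4 : W * (64 * (D * lam)) ≤ W * (ω * Ω) := by
      rw [hΩ]
      have h5 : 0 ≤ W * (ω * (N * lam)) := by positivity
      have h6 : ω * lam * (W * N) = W * (ω * (N * lam)) := by ring
      have h7 : ω * k * (D * lam) = ω * lam * (2 * (D * k)) / 2 := by ring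
      linarith only [h2, h3, h5, h6, h7]
    exact le_of_mul_le_mul_left h4 hW0
  have t2 : D * lB ≤ W / 2 * Ω + ω * Ω / 16 := by
    have h1 : D * lB ≤ D * (κ * lam + α * (γ * lam) + La) :=
      mul_le_mul_of_nonneg_left hB hD0
    have h2 : D * (κ * lam) ≤ 1 / 2 * (D * lam) := by
      have : κ * 2 * (D * lam) ≤ 1 * (D * lam) :=
        mul_le_mul_of_nonneg_right hκ2 (by positivity)
      linarith only [this]
    have h3 : D * (α * (γ * lam)) ≤ W / 2 * Ω := by
      have e1 : α * (D * γ) ≤ α * (x * N) := mul_le_mul_of_nonneg_left hD1 hα0.le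
      have e2 : α * (D * γ) * lam ≤ α * (x * N) * lam :=
        mul_le_mul_of_nonneg_right e1 hlam0.le
      have e3 : α * (x * N) * lam = W / 2 * Ω := by
        rw [hΩ, ← hαx]; ring
      have e4 : D * (α * (γ * lam)) = α * (D * γ) * lam := by ring
      rw [e4, ← e3]
      exact e2
    have h4 : D * La ≤ 1 / 256 * (D * lam) := by
      have e1 : D * La ≤ D * (ω / 128 * lam) := mul_le_mul_of_nonneg_left hLaω hD0
      have e2 : ω * (D * lam) ≤ 1 / 2 * (D * lam) :=
        mul_le_mul_of_nonneg_right hω2 (by positivity)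
      linarith only [e1, e2]
    have h6 : D * (κ * lam + α * (γ * lam) + La) =
        D * (κ * lam) + D * (α * (γ * lam)) + D * La := by ring
    have h7 : 0 ≤ D * lam := by positivity
    linarith only [h1, h2, h3, h4, h6, h7, hDlam]
  have hγΩ : 1600 * (α * (γ * lam)) ≤ ω * Ω := by
    have h1 : 16 * α ≤ ω * k := by
      refine le_trans ?_ hωk
      have e1 : 256 * α * 1 ≤ 256 * α * (W + 3) ^ 2 := by
        apply mul_le_mul_of_nonneg_left _ (by positivity)
        linarith only [hW3]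
      linarith only [e1, hα0]
    have h2 : 16 * α * (γ * lam) ≤ ω * k * (γ * lam) :=
      mul_le_mul_of_nonneg_right h1 (by positivity)
    have h3 : ω * lam * (100 * k * γ) ≤ ω * lam * N :=
      mul_le_mul_of_nonneg_left hNγ (by positivity)
    have h4 : ω * Ω = ω * lam * N := by rw [hΩ]; ring
    rw [h4]
    linarith only [h2, h3]
  have hlamΩ : 1600 * lam ≤ ω * Ω := by
    refine le_trans ?_ hγΩ
    have h7 : 1 * (1 * lam) ≤ α * (γ * lam) := by gcongr
    linarith only [h7]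
  have t3 : 2 * lV ≤ ω * Ω / 8 := by
    have hwL : w * L ≤ ω * Ω / 32 := by
      calc w * L ≤ w * (Q * La) := mul_le_mul_of_nonneg_left hLQ hw0
        _ = w * Q * La := by ring
        _ ≤ 2 * α * (W + 1) * N * La := mul_le_mul_of_nonneg_right hwQ hLa0
        _ = ω * Ω / 32 := by
            rw [hLa, hΩ]
            field_simp
            ring
    have h2 : La ≤ 1 / 256 * lam := by
      have : ω * lam ≤ 1 / 2 * lam := mul_le_mul_of_nonneg_right hω2 hlam0.le
      linarith only [this, hLaω]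
    rw [hV]
    linarith only [hwL, h2, hBp, hBn, hγΩ, hlamΩ, hωΩ0]
  have t4 : md * lH ≤ α * (W + 1) * κ * Ω + ω * Ω / 32 := by
    have h1 : md * lH ≤ (α * (W + 1) * N + 4 * α / (W * j) * N) * (κ * lam) := by
      have e1 : (0 : ℝ) ≤ κ * lam := by positivity
      calc md * lH ≤ md * (κ * lam) := mul_le_mul_of_nonneg_left hH hmd0
        _ ≤ _ := mul_le_mul_of_nonneg_right hmd e1
    have h2 : 4 * α / (W * j) * κ ≤ ω / 32 := by
      rw [div_mul_eq_mul_div, div_le_div_iff₀ (by positivity) (by norm_num)]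
      have e1 : 64 * W ≤ ω * j * W := mul_le_mul_of_nonneg_right hj hW0.le
      have e2 : (α * κ * 2) * 64 ≤ 1 * 64 := by
        apply mul_le_mul_of_nonneg_right hακ (by norm_num)
      have e3 : ω * (W * j) = ω * j * W := by ring
      rw [e3]
      linarith only [e1, e2, hW]
    have h3 : (α * (W + 1) * N + 4 * α / (W * j) * N) * (κ * lam) =
      α * (W + 1) * κ * Ω + 4 * α / (W * j) * κ * Ω := by rw [hΩ]; ring
    have h4 : 4 * α / (W * j) * κ * Ω ≤ ω / 32 * Ω :=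
      mul_le_mul_of_nonneg_right h2 hΩ0.le
    linarith only [h1, h3, h4]
  have t5 : (3 * a) * lam ≤ ω * Ω / 10 := by
    have h1 : j * a * lam ≤ 2 * N * lam := mul_le_mul_of_nonneg_right ha3 hlam0.le
    have h2 : 64 * (a * lam) ≤ ω * j * (a * lam) :=
      mul_le_mul_of_nonneg_right hj (by positivity)
    have h3 : ω * (j * a * lam) ≤ ω * (2 * N * lam) :=
      mul_le_mul_of_nonneg_left h1 hω.le
    have h4 : ω * Ω = ω * (N * lam) := by rw [hΩ]
    rw [h4]
    rw [h4] at hωΩ0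
    linarith only [h2, h3, hωΩ0]
  have t6 : (α * (W + 1) * κ + ω) * Ω ≤ W / 2 * Ω :=
    mul_le_mul_of_nonneg_right hκω hΩ0.le
  have t7 : (N * W - 3 * a) * lam = W * Ω - (3 * a) * lam := by
    rw [hΩ]; ring
  rw [t7]
  linarith only [hU, t2, t3, t4, t5, t6, hωΩ0]

/-- The size of the constant in Siegel's lemma. -/
theorem logU_aux (N W α m D d lDd j a y0 : ℝ) (hN : 0 < N) (hW : 1 ≤ W) (hα : 1 ≤ α)
    (hj : 128 ≤ j) (haN : a ≤ N) (hyR : 2 * y0 = W * (W + 1))
    (hm : m ≤ α * (W + 1) * N + 4 * α / (W * j) * N) (hm0 : 0 ≤ m) (hD0 : 0 ≤ D) (hd0 : 0 ≤ d)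
    (hDN : D ≤ N) (hdN : d ≤ N) (hl : lDd ≤ N * y0 + 2 * a) :
    lDd + (m + D + d) * Real.log 2 ≤ 8 * α * (W + 1) ^ 2 * N := by
  have hα0 : 0 < α := by linarith
  have hW0 : 0 < W := by linarith
  have h3 : lDd ≤ 2 * (W + 1) ^ 2 * N := by
    have e4 : N * y0 = N * (W * (W + 1)) / 2 := by rw [← hyR]; ring
    have e5 : N * (W * (W + 1)) ≤ N * (W + 1) ^ 2 := by
      apply mul_le_mul_of_nonneg_left _ hN.le
      nlinarith only [hW]
    have e6 : N * 4 ≤ N * (W + 1) ^ 2 := by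
      apply mul_le_mul_of_nonneg_left _ hN.le
      nlinarith only [hW]
    have e7 : 2 * (W + 1) ^ 2 * N = 2 * (N * (W + 1) ^ 2) := by ring
    rw [e7]
    linarith only [e4, e5, e6, hl, haN, hN]
  have h4 : (m + D + d) * Real.log 2 ≤ (m + D + d) * 1 := by
    apply mul_le_mul_of_nonneg_left _ (by positivity)
    have := Real.log_two_lt_d9
    linarith
  have hs4 : 4 * α / (W * j) ≤ α / 32 := by
    rw [div_le_div_iff₀ (by positivity) (by norm_num)]
    have : α * (128 : ℝ) ≤ α * (W * j) := by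
      apply mul_le_mul_of_nonneg_left _ hα0.le
      calc (128 : ℝ) = 1 * 128 := by norm_num
        _ ≤ W * j := by gcongr
    linarith only [this]
  have h5 : m + D + d ≤ 4 * α * (W + 1) * N := by
    have e3 : 4 * α / (W * j) * N ≤ α / 32 * N := by gcongr
    have e4 : 1 * N ≤ α * N := mul_le_mul_of_nonneg_right hα hN.le
    have e5 : α * N * 2 ≤ α * N * (W + 1) := by
      apply mul_le_mul_of_nonneg_left _ (by positivity)
      linarith only [hW]
    have e6 : 4 * α * (W + 1) * N = 4 * (α * N * (W + 1)) := by ring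
    have e7 : α * (W + 1) * N = α * N * (W + 1) := by ring
    rw [e6]
    rw [e7] at hm
    have e8 : 0 ≤ α * N * (W + 1) := by positivity
    linarith only [hm, e3, e4, e5, e8, hDN, hdN]
  have h6 : 4 * α * (W + 1) * N ≤ 2 * α * (W + 1) ^ 2 * N := by
    have e1 : α * N * (W + 1) * 2 ≤ α * N * (W + 1) * (W + 1) := by
      apply mul_le_mul_of_nonneg_left _ (by positivity)
      linarith only [hW]
    nlinarith only [e1]
  have h7 : 2 * (W + 1) ^ 2 * N ≤ α * (2 * (W + 1) ^ 2 * N) := by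
    have : 1 * (2 * (W + 1) ^ 2 * N) ≤ α * (2 * (W + 1) ^ 2 * N) :=
      mul_le_mul_of_nonneg_right hα (by positivity)
    linarith only [this]
  have h8 : 0 ≤ α * (W + 1) ^ 2 * N := by positivity
  have h9 : α * (2 * (W + 1) ^ 2 * N) = 2 * (α * (W + 1) ^ 2 * N) := by ring
  have h10 : 2 * α * (W + 1) ^ 2 * N = 2 * (α * (W + 1) ^ 2 * N) := by ring
  have h11 : 8 * α * (W + 1) ^ 2 * N = 8 * (α * (W + 1) ^ 2 * N) := by ring
  rw [h11]
  rw [h10] at h6
  rw [h9] at h7
  linarith only [h3, h4, h5, h6, h7, h8]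

end Pool.Agent.Lib.AbcW
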