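import Pool.Agent.Lib.AbcW.Count

/-!
# The determinant of a strip

-/

set_option autoImplicit false

namespace Pool.Agent.Lib.AbcW

open Polynomial Finset

/-- The coefficient function of `Y^l`. -/
noncomputable def phi (n : ℕ → ℕ) (c : ℕ → ℕ → ℚ) (D l : ℕ) : ℚ[X] :=
  ∑ j ∈ range (D + 1), C (c j l) * X ^ (j + n l)

theorem comb_phi (n : ℕ → ℕ) (c : ℕ → ℕ → ℚ) (D d : ℕ) (w : ℕ → ℚ) :
    ∑ l ∈ range (d + 1), C (w l) * phi n c D l
      = ∑ x ∈ range (D + 1) ×ˢ range (d + 1), C (c x.1 x.2 * w x.2) * X ^ (x.1 + n x.2) := by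
  rw [Finset.sum_product_right]
  refine Finset.sum_congr rfl ?_
  intro l _
  unfold phi
  rw [Finset.mul_sum]
  refine Finset.sum_congr rfl ?_
  intro j _
  rw [C_mul]
  ring

theorem dvd_comb_phi (n : ℕ → ℕ) (c : ℕ → ℕ → ℚ) (D d : ℕ) (w : ℕ → ℚ) (β : ℚ) (hβ : β ≠ 0)
    (K : ℕ) (h : ∀ k < K, ∑ j ∈ range (D + 1), ∑ l ∈ range (d + 1),
      c j l * w l * ((j + n l).choose k : ℚ) * β ^ (j + n l) = 0) :
    (X - C β) ^ K ∣ ∑ l ∈ range (d + 1), C (w l) * phi n c D l := by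
  rw [comb_phi]
  refine dvd_of_choose _ (fun x : ℕ × ℕ => c x.1 x.2 * w x.2) (fun x => x.1 + n x.2) β hβ K ?_
  intro k hk
  rw [Finset.sum_product]
  exact h k hk

theorem expand_mono (γ : ℕ) (s : ℚ) (m : ℕ) :
    expand ℚ γ (C s * X ^ m) = C s * X ^ (γ * m) := by
  rw [map_mul, expand_C, map_pow, expand_X, ← pow_mul]

/-- The strip determinant: everything is a power of the variable times a polynomial of small
degree. -/
theorem strip_det (n : ℕ → ℕ) (c : ℕ → ℕ → ℚ) (D d γ N lo hi r : ℕ)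
    (hlo : ∀ l ≤ d, lo ≤ γ * n l + N * l) (hhi : ∀ l ≤ d, γ * (n l + D) + N * l ≤ hi) :
    ∃ P : ℚ[X], P.natDegree ≤ r * (hi - lo) ∧
      (Matrix.of fun (a b : Fin r) => ∑ l ∈ range (d + 1),
        expand ℚ γ ((eul ^ (a : ℕ)) (phi n c D l)) * expand ℚ N ((eul ^ (b : ℕ)) (X ^ l))).det
        = (X ^ lo) ^ r * P := by
  set p : Matrix (Fin r) (Fin r) ℚ[X] := Matrix.of fun a b =>
    ∑ l ∈ range (d + 1), ∑ j ∈ range (D + 1),
      C (((j + n l : ℕ) : ℚ) ^ (a : ℕ) * c j l * (l : ℚ) ^ (b : ℕ))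
        * X ^ (γ * (j + n l) + N * l - lo) with hp
  have h1 : (Matrix.of fun (a b : Fin r) => ∑ l ∈ range (d + 1),
        expand ℚ γ ((eul ^ (a : ℕ)) (phi n c D l)) * expand ℚ N ((eul ^ (b : ℕ)) (X ^ l)))
      = (X ^ lo : ℚ[X]) • p := by
    ext1 a b
    rw [Matrix.smul_apply, smul_eq_mul]
    simp only [hp, Matrix.of_apply]
    rw [Finset.mul_sum]
    refine Finset.sum_congr rfl ?_
    intro l hl
    rw [Finset.mem_range] at hl
    rw [Finset.mul_sum]
    unfold phi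
    rw [map_sum, map_sum, Finset.sum_mul]
    refine Finset.sum_congr rfl ?_
    intro j _
    rw [eul_pow_monomial, eul_pow_X_pow, expand_mono, expand_mono]
    have h2 : lo ≤ γ * (j + n l) + N * l := by
      have h3 := hlo l (by omega)
      have h4 : γ * n l ≤ γ * (j + n l) := Nat.mul_le_mul_left _ (by omega)
      omega
    have h5 : (X : ℚ[X]) ^ (γ * (j + n l) + N * l)
        = X ^ lo * X ^ (γ * (j + n l) + N * l - lo) := by
      rw [← pow_add]
      congr 1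
      omega
    have h6 : C (((j + n l : ℕ) : ℚ) ^ (a : ℕ) * c j l) * X ^ (γ * (j + n l))
        * (C ((l : ℚ) ^ (b : ℕ)) * X ^ (N * l))
        = C (((j + n l : ℕ) : ℚ) ^ (a : ℕ) * c j l * (l : ℚ) ^ (b : ℕ))
          * X ^ (γ * (j + n l) + N * l) := by
      rw [C_mul (a := ((j + n l : ℕ) : ℚ) ^ (a : ℕ) * c j l), pow_add]
      ring
    rw [h6, h5]
    ring
  refine ⟨p.det, ?_, ?_⟩
  · rw [Matrix.det_apply]
    refine natDegree_sum_le_of_forall_le _ _ ?_
    intro σ _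
    refine (natDegree_smul_le _ _).trans ?_
    refine (natDegree_prod_le _ _).trans ?_
    calc ∑ i : Fin r, (p (σ i) i).natDegree
        ≤ ∑ _i : Fin r, (hi - lo) := by
          refine Finset.sum_le_sum ?_
          intro i _
          simp only [hp, Matrix.of_apply]
          refine natDegree_sum_le_of_forall_le _ _ ?_
          intro l hl
          rw [Finset.mem_range] at hl
          refine natDegree_sum_le_of_forall_le _ _ ?_
          intro j hj
          rw [Finset.mem_range] at hj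
          refine (natDegree_C_mul_X_pow_le _ _).trans ?_
          have h3 := hhi l (by omega)
          have h4 : γ * (j + n l) ≤ γ * (n l + D) := Nat.mul_le_mul_left _ (by omega)
          omega
      _ = r * (hi - lo) := by simp
  · rw [h1, Matrix.det_smul, Fintype.card_fin]

theorem prod_id (n : ℕ → ℕ) (c : ℕ → ℕ → ℚ) (D d γ N r : ℕ) (F : ℕ → ℚ[X]) (q : Fin r → ℕ)
    (lam : ℕ → Fin r → ℚ)
    (hF : ∀ i < d + 1, F i = ∑ j, lam i j • F (q j))
    (hFφ : ∀ i, F i = ∑ l ∈ range (d + 1), (l.choose i : ℚ) • phi n c D l) :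
    (Matrix.of fun (a b : Fin r) => ∑ l ∈ range (d + 1),
        expand ℚ γ ((eul ^ (a : ℕ)) (phi n c D l)) * expand ℚ N ((eul ^ (b : ℕ)) (X ^ l)))
      = ((expand ℚ γ).mapMatrix (wmat r (fun j => F (q j)))) * ((expand ℚ N).mapMatrix
        (wmat r (fun j => ∑ i ∈ range (d + 1), lam i j • (X - C 1) ^ i))).transpose := by
  ext1 a b
  rw [Matrix.mul_apply, Matrix.of_apply]
  have h := bilin F (phi n c D) q lam hF hFφ
      ((expand ℚ γ).toLinearMap ∘ₗ (eul ^ (a : ℕ))) ((expand ℚ N).toLinearMap ∘ₗ (eul ^ (b : ℕ)))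
  rw [show (∑ l ∈ range (d + 1),
    (expand ℚ γ) ((eul ^ (a : ℕ)) (phi n c D l)) * (expand ℚ N) ((eul ^ (b : ℕ)) (X ^ l)))
    = ∑ l ∈ range (d + 1), ((expand ℚ γ).toLinearMap ∘ₗ (eul ^ (a : ℕ))) (phi n c D l) *
      ((expand ℚ N).toLinearMap ∘ₗ (eul ^ (b : ℕ))) (X ^ l) from rfl, ← h]
  refine Finset.sum_congr rfl ?_
  intro j _
  rfl

end Pool.Agent.Lib.AbcW
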