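import Mathlib
import Pool.Agent.Lib.AbcE.TheoremE
import Pool.Agent.Lib.AbcH.ThmE3
import Pool.Agent.Lib.AbcQ.ThmPexp
import Pool.Agent.Lib.AbcW.CoreW
import Pool.Agent.Lib.AbcW.Ineq
import Pool.Agent.Lib.AbcW.Size

/-!
# Theorem P of index `W`, version with exponents

`z = s * ∏ p i ^ e i`, `s = 1` or `-1`, is congruent to `1` modulo `q ^ u`, and its height is at
most `α * u * log q`. Then `u` is small compared to the number `G` of multiples which the
pigeonhole principle needs to find `γ`, `f`, `b1`, `b2` with `γ e ≈ u f` and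
`b2 * posP p f` congruent to `b1 * negP p f` modulo `q`.
-/

namespace Pool.Agent.Lib.AbcW

open Finset Pool.Agent.AbcE Pool.Agent.Lib.AbcH Pool.Agent.Lib.AbcQ

variable {ι : Type*} [Fintype ι]

/-- **Theorem P** of index `W`, version with exponents. -/
theorem thmPexpW (p : ι → ℕ) (hp : ∀ i, (p i).Prime) (hinj : Function.Injective p)
    (e : ι → ℤ) (q u : ℕ) (hq : q.Prime) (hcop : ∀ i, (p i).Coprime q) (s : ℤ)
    (hs : s = 1 ∨ s = -1) (hne : (posP p e : ℤ) ≠ s * negP p e)
    (hdvd : ((q ^ u : ℕ) : ℤ) ∣ (posP p e : ℤ) - s * negP p e)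
    (κ ω α : ℝ) (hκ : 0 < κ) (hω : 0 < ω) (hω2 : ω ≤ 1 / 2) (hα : 1 ≤ α)
    (W j k Q H G : ℕ) (hW : 1 ≤ W) (hκω : α * ((W : ℝ) + 1) * κ + ω ≤ W / 2)
    (hj : 64 ≤ ω * j) (hk : 4 * α * ((W : ℝ) + 3) ^ 2 * j ≤ k)
    (hQ : 0 < Q) (hH : 1 ≤ H) (hHq : H < q)
    (hHκ : Real.log H ≤ κ * Real.log q)
    (hG : Q ^ Fintype.card ι * (q - 1) < (G + 1) * H)
    (hLQ : ∑ i, Real.log (p i) ≤ Q * (ω / (64 * α * ((W : ℝ) + 1)) * Real.log q))
    (hlam : 64 * α * ((W : ℝ) + 1) ^ 2 * ((W : ℝ) * (W + 1) * j + 1) ≤ ω * Real.log q)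
    (hZ1 : Real.log (posP p e) ≤ α * (u * Real.log q))
    (hZ2 : Real.log (negP p e) ≤ α * (u * Real.log q)) :
    u ≤ 100 * k ^ 2 * G := by
  classical
  by_contra hcon
  have hcon := not_le.1 hcon
  set N : ℕ := u with hN
  have hpos : ∀ i, 0 < p i := fun i => (hp i).pos
  set lam : ℝ := Real.log q with hlamdef
  have hlam0 : 0 < lam := Real.log_pos (by exact_mod_cast hq.one_lt)
  have hα0 : 0 < α := by linarith
  have hWR : (1 : ℝ) ≤ W := by exact_mod_cast hW
  have hW0 : (0 : ℝ) < W := by linarith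
  have hj64R : (128 : ℝ) ≤ j := by
    by_contra h
    have h1 : (j : ℝ) < 128 := not_le.1 h
    have h2 : ω * j ≤ 1 / 2 * j := mul_le_mul_of_nonneg_right hω2 (Nat.cast_nonneg _)
    linarith
  have hj128 : 128 ≤ j := by exact_mod_cast hj64R
  have hj0 : 0 < j := by omega
  have hj0R : (0 : ℝ) < j := by linarith
  have hW3 : (16 : ℝ) ≤ ((W : ℝ) + 3) ^ 2 := by nlinarith
  have hW3pos : (0 : ℝ) < ((W : ℝ) + 3) ^ 2 := by linarith
  have hkjR : 64 * (j : ℝ) ≤ k := by
    refine le_trans ?_ hk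
    have h1 : (64 : ℝ) ≤ 4 * α * ((W : ℝ) + 3) ^ 2 := by
      calc (64 : ℝ) = 4 * 1 * 16 := by norm_num
        _ ≤ 4 * α * ((W : ℝ) + 3) ^ 2 := by gcongr
    exact mul_le_mul_of_nonneg_right h1 hj0R.le
  have hkj : 64 * j ≤ k := by exact_mod_cast hkjR
  have hk0 : 0 < k := by omega
  have hακ : α * κ * 2 ≤ 1 := by
    have h1 : α * κ * (2 * ((W : ℝ) + 1)) ≤ 1 * ((W : ℝ) + 1) := by
      have e1 : α * κ * (2 * ((W : ℝ) + 1)) = 2 * (α * ((W : ℝ) + 1) * κ) := by ring
      rw [e1]
      linarith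
    have h2 : α * κ * (2 * ((W : ℝ) + 1)) = α * κ * 2 * ((W : ℝ) + 1) := by ring
    rw [h2] at h1
    exact le_of_mul_le_mul_right h1 (by linarith)
  have hκ2 : κ * 2 ≤ 1 := by
    have h1 : 1 * (κ * 2) ≤ α * (κ * 2) := mul_le_mul_of_nonneg_right hα (by positivity)
    linarith
  have hN00 : 0 < N := by omega
  obtain ⟨γ, b1, b2, hγk, hγG, hb1, hb1H, hb2, hb2H, f, hf, hfM⟩ :=
    pigeonB p q hq hcop e N Q k H G hN00 hQ hk0 hH hHq hG
  have hγ0 : 0 < γ := by omega
  have hNγ : 100 * k * γ ≤ N := by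
    calc 100 * k * γ ≤ 100 * k * (k * G) := Nat.mul_le_mul_left _ hγG
      _ = 100 * k ^ 2 * G := by ring
      _ ≤ N := hcon.le
  have hNpos : 0 < N := by omega
  -- real versions
  have hγR : (0 : ℝ) < γ := by exact_mod_cast hγ0
  have hNR : (0 : ℝ) < N := by exact_mod_cast hNpos
  have hkR : (0 : ℝ) < k := by exact_mod_cast hk0
  have hQR : (0 : ℝ) < Q := by exact_mod_cast hQ
  have hγkR : (k : ℝ) ≤ γ := by exact_mod_cast hγk
  have hNγR : 100 * (k : ℝ) * γ ≤ N := by exact_mod_cast hNγ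
  set L : ℝ := ∑ i, Real.log (p i) with hL
  have hL0 : 0 ≤ L := Finset.sum_nonneg fun i _ => Real.log_natCast_nonneg _
  set La : ℝ := ω / (64 * α * ((W : ℝ) + 1)) * lam with hLa
  have hLa0 : 0 ≤ La := by positivity
  have hLaω : La ≤ ω / 128 * lam := by
    rw [hLa]
    apply mul_le_mul_of_nonneg_right _ hlam0.le
    apply div_le_div_of_nonneg_left hω.le (by norm_num)
    have : (64 : ℝ) * 1 * 2 ≤ 64 * α * ((W : ℝ) + 1) := by gcongr; linarith
    linarith
  -- comparison of `γ e` and `N f`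
  have hkey1 : ∀ i, (γ : ℝ) * e i ≤ N * f i + N / Q := by
    intro i
    have h1 : |(γ : ℝ) * e i - N * f i| * Q < N := by exact_mod_cast hf i
    have h2 : |(γ : ℝ) * e i - N * f i| < N / Q := by rwa [lt_div_iff₀ hQR]
    have h3 := (abs_lt.1 h2).2
    linarith
  have hkey2 : ∀ i, (N : ℝ) * f i ≤ γ * e i + N / Q := by
    intro i
    have h1 : |(γ : ℝ) * e i - N * f i| * Q < N := by exact_mod_cast hf i
    have h2 : |(γ : ℝ) * e i - N * f i| < N / Q := by rwa [lt_div_iff₀ hQR]
    have h3 := (abs_lt.1 h2).1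
    linarith
  have hNQ0 : (0 : ℝ) ≤ N / Q := by positivity
  have hNQL : (N : ℝ) / Q * L ≤ N * La := by
    rw [div_mul_eq_mul_div, div_le_iff₀ hQR]
    have : (N : ℝ) * L ≤ N * (Q * La) := mul_le_mul_of_nonneg_left hLQ hNR.le
    linarith
  have hup1 : (N : ℝ) * Real.log (posP p f) ≤ γ * Real.log (posP p e) + N * La := by
    rw [log_posP p hpos f, log_posP p hpos e]
    have h1 := sum_cmp p hpos (fun i => (f i).toNat) (fun i => (e i).toNat) N γ (N / Q)
      (fun i => toNat_cmp _ _ _ _ _ hNR.le hγR.le hNQ0 (hkey2 i))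
    linarith
  have hup2 : (N : ℝ) * Real.log (negP p f) ≤ γ * Real.log (negP p e) + N * La := by
    rw [log_negP p hpos f, log_negP p hpos e]
    have h1 := sum_cmp p hpos (fun i => (-f i).toNat) (fun i => (-e i).toNat) N γ (N / Q)
      (fun i => toNat_cmp _ _ _ _ _ hNR.le hγR.le hNQ0 (by
        push_cast
        have := hkey1 i
        linarith))
    linarith
  have hlow1 : (γ : ℝ) * Real.log (posP p e) ≤ N * Real.log (posP p f) + N * La := by
    rw [log_posP p hpos f, log_posP p hpos e]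
    have h1 := sum_cmp p hpos (fun i => (e i).toNat) (fun i => (f i).toNat) γ N (N / Q)
      (fun i => toNat_cmp _ _ _ _ _ hγR.le hNR.le hNQ0 (hkey1 i))
    linarith
  have hlow2 : (γ : ℝ) * Real.log (negP p e) ≤ N * Real.log (negP p f) + N * La := by
    rw [log_negP p hpos f, log_negP p hpos e]
    have h1 := sum_cmp p hpos (fun i => (-e i).toNat) (fun i => (-f i).toNat) γ N (N / Q)
      (fun i => toNat_cmp _ _ _ _ _ hγR.le hNR.le hNQ0 (by
        push_cast
        have := hkey2 i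
        linarith))
    linarith
  -- heights of `β`
  have hBp : Real.log (posP p f) ≤ α * (γ * lam) + La := by
    have h1 : (N : ℝ) * Real.log (posP p f) ≤ N * (α * (γ * lam) + La) := by
      have h2 := mul_le_mul_of_nonneg_left hZ1 hγR.le
      have h3 : (γ : ℝ) * (α * (N * lam)) = N * (α * (γ * lam)) := by ring
      rw [mul_add]
      linarith
    exact le_of_mul_le_mul_left h1 hNR
  have hBn : Real.log (negP p f) ≤ α * (γ * lam) + La := by
    have h1 : (N : ℝ) * Real.log (negP p f) ≤ N * (α * (γ * lam) + La) := by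
      have h2 := mul_le_mul_of_nonneg_left hZ2 hγR.le
      have h3 : (γ : ℝ) * (α * (N * lam)) = N * (α * (γ * lam)) := by ring
      rw [mul_add]
      linarith
    exact le_of_mul_le_mul_left h1 hNR
  -- the modulus
  set M : ℕ := q ^ N with hM
  have hMpos : 0 < M := pow_pos hq.pos _
  have hMR : (0 : ℝ) < M := by exact_mod_cast hMpos
  have hlogM : Real.log M = N * lam := by
    rw [hM]
    push_cast
    rw [Real.log_pow]
  have hlam2 : (1 : ℝ) ≤ lam := by
    have h1 : (64 : ℝ) * 1 * 1 * 1 ≤ 64 * α * ((W : ℝ) + 1) ^ 2 * ((W : ℝ) * (W + 1) * j + 1) := by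
      gcongr
      · nlinarith
      · have : (0 : ℝ) ≤ (W : ℝ) * (W + 1) * j := by positivity
        linarith
    have h2 : ω * lam ≤ 1 / 2 * lam := mul_le_mul_of_nonneg_right hω2 hlam0.le
    linarith
  -- lower bound of the height of `z`
  have hzlow : (N : ℝ) * lam - 0.7 ≤ Real.log (posP p e) + Real.log (negP p e) := by
    have hpp : 0 < posP p e := posP_pos hpos e
    have hnp : 0 < negP p e := negP_pos hpos e
    have h1 : (posP p e : ℤ) - s * negP p e ≠ 0 := sub_ne_zero.2 hne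
    have h2 : M ≤ ((posP p e : ℤ) - s * negP p e).natAbs := by
      refine Nat.le_of_dvd (Int.natAbs_pos.2 h1) ?_
      have h20 := Int.natAbs_dvd_natAbs.2 hdvd
      rw [Int.natAbs_natCast] at h20
      exact h20
    have h3 : ((posP p e : ℤ) - s * negP p e).natAbs ≤ posP p e + negP p e := by
      rcases hs with h | h <;> rw [h] <;> omega
    have h4 : posP p e + negP p e ≤ 2 * (posP p e * negP p e) := by
      nlinarith only [hpp, hnp]
    have h5 : M ≤ 2 * (posP p e * negP p e) := h2.trans (h3.trans h4)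
    have h6 : (M : ℝ) ≤ 2 * (posP p e * negP p e) := by exact_mod_cast h5
    have h7 := Real.log_le_log hMR h6
    have hppR : (0 : ℝ) < posP p e := by exact_mod_cast hpp
    have hnpR : (0 : ℝ) < negP p e := by exact_mod_cast hnp
    rw [Real.log_mul (by norm_num) (by positivity), Real.log_mul hppR.ne' hnpR.ne', hlogM] at h7
    have := Real.log_two_lt_d9
    linarith
  set Bp := posP p f with hBpdef
  set Bn := negP p f with hBndef
  have hBppos : 0 < Bp := posP_pos hpos f
  have hBnpos : 0 < Bn := negP_pos hpos f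
  have hlogb1 : Real.log b1 ≤ κ * lam := by
    refine (Real.log_le_log (by exact_mod_cast hb1) ?_).trans hHκ
    exact_mod_cast hb1H
  have hlogb2 : Real.log b2 ≤ κ * lam := by
    refine (Real.log_le_log (by exact_mod_cast hb2) ?_).trans hHκ
    exact_mod_cast hb2H
  set B1 : ℕ := b2 * Bp with hB1
  set B2 : ℕ := b1 * Bn with hB2
  have hB1pos : 0 < B1 := Nat.mul_pos hb2 hBppos
  have hB2pos : 0 < B2 := Nat.mul_pos hb1 hBnpos
  have hneB : B1 ≠ B2 := by
    intro heq
    have hc := posP_coprime_negP hp hinj f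
    have h1 : Bp ∣ b1 := by
      have : Bp ∣ b1 * Bn := by
        rw [← hB2, ← heq]
        exact Dvd.intro_left _ rfl
      exact Nat.Coprime.dvd_of_dvd_mul_right hc this
    have h2 : Bn ∣ b2 := by
      have : Bn ∣ b2 * Bp := by
        rw [← hB1, heq]
        exact Dvd.intro_left _ rfl
      exact Nat.Coprime.dvd_of_dvd_mul_right hc.symm this
    have h3 : Real.log Bp ≤ κ * lam := by
      refine (Real.log_le_log (by exact_mod_cast hBppos) ?_).trans hlogb1
      exact_mod_cast Nat.le_of_dvd hb1 h1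
    have h4 : Real.log Bn ≤ κ * lam := by
      refine (Real.log_le_log (by exact_mod_cast hBnpos) ?_).trans hlogb2
      exact_mod_cast Nat.le_of_dvd hb2 h2
    -- `γ (N lam - 0.7) ≤ N (2 κ lam + 2 La)`
    have h5 : (γ : ℝ) * (N * lam - 0.7) ≤ N * (2 * (κ * lam) + 2 * La) := by
      have e1 := mul_le_mul_of_nonneg_left hzlow hγR.le
      have e2 := mul_le_mul_of_nonneg_left h3 hNR.le
      have e3 := mul_le_mul_of_nonneg_left h4 hNR.le
      linarith
    have h6 : (4 : ℝ) ≤ γ := by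
      have : (4 : ℕ) ≤ γ := by omega
      exact_mod_cast this
    have h7 : (N : ℝ) * lam * 4 ≤ N * lam * γ := by
      apply mul_le_mul_of_nonneg_left h6 (by positivity)
    have h8 : 2 * (κ * lam) + 2 * La ≤ 2 * lam := by
      have e1 : (κ * 2) * lam ≤ 1 * lam := mul_le_mul_of_nonneg_right hκ2 hlam0.le
      have e2 : ω * lam ≤ 1 / 2 * lam := mul_le_mul_of_nonneg_right hω2 hlam0.le
      linarith
    have h9 : (N : ℝ) * (2 * (κ * lam) + 2 * La) ≤ N * (2 * lam) :=
      mul_le_mul_of_nonneg_left h8 hNR.le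
    have h10 : 0.7 * (γ : ℝ) ≤ 0.007 * N := by
      have : 100 * (1 : ℝ) * γ ≤ 100 * k * γ := by gcongr; linarith
      linarith
    have h11 : (N : ℝ) * 1 ≤ N * lam := mul_le_mul_of_nonneg_left hlam2 hNR.le
    linarith
  -- `D`, `a`, `d`
  set x : ℝ := (W : ℝ) / (2 * α) with hx
  have hx0 : 0 < x := by positivity
  have hαx : α * x = W / 2 := by
    rw [hx]
    field_simp
  have hxW : x ≤ W / 2 := by
    have : 1 * x ≤ α * x := mul_le_mul_of_nonneg_right hα hx0.le
    linarith
  set X : ℝ := x * N / γ with hX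
  have hX0 : 0 ≤ X := by positivity
  set D : ℕ := ⌊X⌋₊ with hD
  have hD1 : (D : ℝ) * γ ≤ x * N := by
    have h1 : (D : ℝ) ≤ X := Nat.floor_le hX0
    rw [hX, le_div_iff₀ hγR] at h1
    exact h1
  have hD2 : x * N ≤ ((D : ℝ) + 1) * γ := by
    have h1 : X < (D : ℝ) + 1 := Nat.lt_floor_add_one _
    rw [hX, div_lt_iff₀ hγR] at h1
    exact h1.le
  set a : ℕ := N / j + 1 with ha
  have hty := two_tri' W
  set y0 : ℕ := W * (W + 1) / 2 with hy0
  have hyR : 2 * (y0 : ℝ) = W * (W + 1) := by exact_mod_cast hty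
  set d : ℕ := (N * y0 + a) / (D + 1) with hd
  have hd1 : d * (D + 1) ≤ N * y0 + a := Nat.div_mul_le_self _ _
  have hd2 : N * y0 + a < (D + 1) * (d + 1) := Nat.lt_mul_div_succ _ (Nat.succ_pos D)
  have ha1 : N < j * a := Nat.lt_mul_div_succ _ hj0
  have ha2 : j * a ≤ N + j := by
    have : j * (N / j) ≤ N := Nat.mul_div_le _ _
    calc j * a = j * (N / j) + j := by rw [ha]; ring
      _ ≤ N + j := by omega
  have hNk : 100 * k * k ≤ N := (Nat.mul_le_mul_left _ hγk).trans hNγ
  have hNkj : 100 * k * j ≤ N := (Nat.mul_le_mul_left _ (by omega)).trans hNk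
  have hjN : 100 * j ≤ N := by
    refine le_trans ?_ hNkj
    have : 100 * 1 * j ≤ 100 * k * j := by gcongr; omega
    omega
  have ha3 : j * a ≤ 2 * N := by omega
  have haN : a ≤ N := by
    have h1 : 2 * a ≤ j * a := Nat.mul_le_mul_right _ (by omega)
    omega
  have ha1R : (N : ℝ) ≤ j * a := by exact_mod_cast ha1.le
  have ha3R : (j : ℝ) * a ≤ 2 * N := by exact_mod_cast ha3
  -- `N d / γ ≤ N (P + 4 α / (W j))`, `P = α (W + 1)`
  have hdx : (d : ℝ) * x * N ≤ γ * (N * y0 + a) := by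
    have e2 : (d : ℝ) * (D + 1) ≤ N * y0 + a := by exact_mod_cast hd1
    calc (d : ℝ) * x * N = d * (x * N) := by ring
      _ ≤ d * ((D + 1) * γ) := by gcongr
      _ = γ * (d * (D + 1)) := by ring
      _ ≤ γ * (N * y0 + a) := by gcongr
  have hdR : (d : ℝ) ≤ γ * (α * (W + 1) + 4 * α / (W * j)) := by
    have e1 : (d : ℝ) * (x * N) ≤ γ * (α * (W + 1) + 4 * α / (W * j)) * (x * N) := by
      have e2 : γ * (N * y0 + (a : ℝ)) ≤ γ * (N * y0 + 2 * N / j) := by
        gcongr
        rw [le_div_iff₀ hj0R]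
        linarith
      have e3 : γ * (α * (W + 1) + 4 * α / (W * j)) * (x * N)
          = γ * (N * y0 + 2 * N / j) := by
        have e4 : (y0 : ℝ) = W * (W + 1) / 2 := by linarith
        rw [e4, hx]
        field_simp
        ring
      rw [e3]
      linarith
    exact le_of_mul_le_mul_right e1 (by positivity)
  have hs4 : 4 * α / ((W : ℝ) * j) ≤ α / 32 := by
    rw [div_le_div_iff₀ (by positivity) (by norm_num)]
    have : α * (128 : ℝ) ≤ α * ((W : ℝ) * j) := by
      apply mul_le_mul_of_nonneg_left _ hα0.le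
      calc (128 : ℝ) = 1 * 128 := by norm_num
        _ ≤ W * j := by gcongr
    linarith
  have hdR2 : (d : ℝ) ≤ γ * (2 * α * (W + 1)) := by
    refine hdR.trans ?_
    apply mul_le_mul_of_nonneg_left _ hγR.le
    have : α * 1 ≤ α * ((W : ℝ) + 1) := by
      apply mul_le_mul_of_nonneg_left _ hα0.le
      linarith
    linarith
  have hD0 : (0 : ℝ) ≤ D := Nat.cast_nonneg _
  have hd0 : (0 : ℝ) ≤ d := Nat.cast_nonneg _
  have hDk : 2 * ((D : ℝ) * k) ≤ W * N := by
    have h1 : (D : ℝ) * k ≤ D * γ := mul_le_mul_of_nonneg_left hγkR hD0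
    have h2 : x * N ≤ W / 2 * N := mul_le_mul_of_nonneg_right hxW hNR.le
    linarith
  have hjD : 8 * ((j : ℝ) * D) ≤ N := by
    -- `k ≥ 4 (W + 3)^2 j ≥ 8 W j`
    have h1 : 8 * (W : ℝ) * j ≤ k := by
      refine le_trans ?_ hk
      apply mul_le_mul_of_nonneg_right _ hj0R.le
      have : (1 : ℝ) * ((W : ℝ) + 3) ^ 2 ≤ α * ((W : ℝ) + 3) ^ 2 :=
        mul_le_mul_of_nonneg_right hα hW3pos.le
      nlinarith
    have h2 : (8 * (W : ℝ) * j) * D ≤ k * D := mul_le_mul_of_nonneg_right h1 hD0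
    have h3 : (W : ℝ) * (8 * (j * D)) ≤ W * N := by
      calc (W : ℝ) * (8 * (j * D)) = (8 * (W : ℝ) * j) * D := by ring
        _ ≤ k * D := h2
        _ ≤ W * N := by
          have : 0 ≤ (D : ℝ) * k := by positivity
          linarith
    exact le_of_mul_le_mul_left h3 hW0
  have hDa : D + 1 ≤ a := by
    have h1 : 8 * (j * D) ≤ N := by exact_mod_cast hjD
    have h2 : j * (D + 1) < j * a := by
      have : j * (D + 1) = j * D + j := by ring
      omega
    exact (Nat.lt_of_mul_lt_mul_left h2).le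
  have hda : (d + 1) * (W + 2) ≤ a := by
    have h1 : (j : ℝ) * (((d : ℝ) + 1) * (W + 2)) ≤ N := by
      have e1 : (d : ℝ) + 1 ≤ γ * (3 * α * (W + 1)) := by
        have e2 : (1 : ℝ) ≤ γ * (α * (W + 1)) := by
          have e3 : (1 : ℝ) ≤ γ := by
            have : (1 : ℕ) ≤ γ := by omega
            exact_mod_cast this
          calc (1 : ℝ) = 1 * (1 * 1) := by norm_num
            _ ≤ γ * (α * (W + 1)) := by gcongr; linarith
        linarith
      calc (j : ℝ) * (((d : ℝ) + 1) * (W + 2)) ≤ j * (γ * (3 * α * (W + 1)) * (W + 2)) := by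
            gcongr
        _ = γ * (3 * α * ((W + 1) * (W + 2)) * j) := by ring
        _ ≤ γ * (4 * α * ((W : ℝ) + 3) ^ 2 * j) := by
            apply mul_le_mul_of_nonneg_left _ hγR.le
            apply mul_le_mul_of_nonneg_right _ hj0R.le
            have : 3 * (((W : ℝ) + 1) * (W + 2)) ≤ 4 * ((W : ℝ) + 3) ^ 2 := by nlinarith
            have := mul_le_mul_of_nonneg_left this hα0.le
            linarith
        _ ≤ γ * k := by gcongr
        _ ≤ N := by
            have : 0 ≤ (k : ℝ) * γ := by positivity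
            linarith
    have h2 : j * ((d + 1) * (W + 2)) ≤ N := by exact_mod_cast h1
    have h3 : j * ((d + 1) * (W + 2)) < j * a := by omega
    exact (Nat.lt_of_mul_lt_mul_left h3).le
  -- the exponents `m l`
  set m : ℕ → ℕ := fun l => l * N / γ with hm
  have hmmono : ∀ l ≤ d, m l ≤ m d := by
    intro l hl
    simp only [hm]
    exact Nat.div_le_div_right (Nat.mul_le_mul_right _ hl)
  have hmdR : (m d : ℝ) ≤ α * (W + 1) * N + 4 * α / (W * j) * N := by
    have h1 : γ * m d ≤ d * N := Nat.mul_div_le _ _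
    have h1R : (γ : ℝ) * m d ≤ d * N := by exact_mod_cast h1
    have h2 : (γ : ℝ) * m d ≤ γ * (α * (W + 1) * N + 4 * α / (W * j) * N) := by
      calc (γ : ℝ) * m d ≤ d * N := h1R
        _ ≤ (γ * (α * (W + 1) + 4 * α / (W * j))) * N := by gcongr
        _ = _ := by ring
    exact le_of_mul_le_mul_left h2 hγR
  -- the common denominator
  set w : ℕ := d * N / (γ * Q) with hw
  set v : ι → ℕ := fun i => (f i).natAbs + w with hv
  set b : ℕ → ι → ℤ := fun l i => l * e i - m l * f i with hb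
  have hkey : ∀ i, |(γ : ℝ) * e i - N * f i| ≤ N / Q := by
    intro i
    rw [abs_le]
    constructor
    · have := hkey2 i
      linarith
    · have := hkey1 i
      linarith
  have hbv : ∀ l ≤ d, ∀ i, |b l i| ≤ v i := by
    intro l hl i
    have h1 : (γ : ℝ) * b l i = l * (γ * e i - N * f i) + (l * N - γ * m l) * f i := by
      simp only [hb]
      push_cast
      ring
    have h2 : |((l : ℝ) * N - γ * m l)| ≤ γ := by
      have e1 : γ * m l ≤ l * N := Nat.mul_div_le _ _
      have e2 : l * N < γ * (m l + 1) := Nat.lt_mul_div_succ _ hγ0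
      have e1' : (γ : ℝ) * m l ≤ l * N := by exact_mod_cast e1
      have e2' : (l : ℝ) * N < γ * (m l + 1) := by exact_mod_cast e2
      rw [abs_of_nonneg (by linarith)]
      linarith
    have h3 : (γ : ℝ) * |(b l i : ℝ)| ≤ d * (N / Q) + γ * |(f i : ℝ)| := by
      have e1 : (γ : ℝ) * |(b l i : ℝ)| = |(γ : ℝ) * b l i| := by rw [abs_mul, abs_of_pos hγR]
      rw [e1, h1]
      refine (abs_add_le _ _).trans ?_
      rw [abs_mul, abs_mul, abs_of_nonneg (Nat.cast_nonneg l)]
      have e4 := hkey i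
      have e5 : (l : ℝ) ≤ d := by exact_mod_cast hl
      have e6 := abs_nonneg (f i : ℝ)
      gcongr
    have h4 : |(b l i : ℝ)| - |(f i : ℝ)| ≤ d * N / (γ * Q) := by
      rw [le_div_iff₀ (by positivity)]
      have e1 : (d : ℝ) * (N / Q) * Q = d * N := by field_simp
      nlinarith only [h3, e1, hQR]
    have h5 : |b l i| - |f i| ≤ (w : ℤ) := by
      have e1 : ((|b l i| - |f i| : ℤ) : ℝ) ≤ (((d * N : ℕ) : ℝ) / ((γ * Q : ℕ) : ℝ)) := by
        push_cast
        exact h4
      have e2 : (|b l i| - |f i| : ℤ) ≤ ⌊(((d * N : ℕ) : ℝ) / ((γ * Q : ℕ) : ℝ))⌋ :=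
        Int.le_floor.2 e1
      refine e2.trans ?_
      rw [hw]
      have e3 : ⌊(((d * N : ℕ) : ℝ) / ((γ * Q : ℕ) : ℝ))⌋ = ((d * N / (γ * Q) : ℕ) : ℤ) := by
        rw [← Nat.floor_div_eq_div (K := ℝ) (d * N) (γ * Q)]
        rw [Int.natCast_floor_eq_floor]
        positivity
      rw [e3]
    have h6 : ((v i : ℕ) : ℤ) = |f i| + w := by
      simp only [hv]
      push_cast
      rw [Int.abs_eq_natAbs]
    rw [h6]
    linarith
  set V : ℕ := ∏ i, p i ^ v i with hV
  set Al : ℕ → ℕ := fun l => ∏ i, p i ^ ((v i : ℤ) + b l i).toNat with hAl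
  have hVpos : 0 < V := Finset.prod_pos fun i _ => pow_pos (hpos i) _
  have hAW : ∀ l ≤ d, Al l ≤ V ^ 2 := by
    intro l hl
    simp only [hAl, hV]
    rw [← Finset.prod_pow]
    refine Finset.prod_le_prod' fun i _ => ?_
    rw [← pow_mul]
    refine Nat.pow_le_pow_right (hpos i) ?_
    have h1 := (abs_le.1 (hbv l hl i)).2
    omega
  have hs2 : s * s = 1 := by rcases hs with h | h <;> rw [h] <;> norm_num
  have hsl : ∀ l : ℕ, |s ^ l| = 1 := by
    intro l
    rw [abs_pow]
    rcases hs with h | h <;> rw [h] <;> simp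
  have hrel0 : ∀ l ≤ d, (Al l : ℤ) * Bp ^ m l * negP p e ^ l = V * Bn ^ m l * posP p e ^ l := by
    intro l hl
    have hid : Al l * Bp ^ m l * negP p e ^ l = V * Bn ^ m l * posP p e ^ l := by
      simp only [hAl, hV, hBpdef, hBndef]
      unfold posP negP
      simp only [← Finset.prod_pow, ← Finset.prod_mul_distrib]
      refine Finset.prod_congr rfl fun i _ => ?_
      simp only [← pow_mul, ← pow_add]
      congr 1
      have h1 := (abs_le.1 (hbv l hl i)).1
      have h2 : 0 ≤ (v i : ℤ) + b l i := by linarith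
      zify
      rw [Int.toNat_of_nonneg h2]
      have h3 : ∀ x : ℤ, ((x.toNat : ℤ)) - ((-x).toNat : ℤ) = x := by
        intro x
        omega
      have h4 := h3 (f i)
      have h5 := h3 (e i)
      simp only [hb]
      linear_combination (m l : ℤ) * h4 - (l : ℤ) * h5
    exact_mod_cast hid
  set A' : ℕ → ℤ := fun l => s ^ l * ((Al l * (b1 ^ m l * b2 ^ (m d - m l)) : ℕ) : ℤ) with hA'
  have hrel : ∀ l ≤ d, A' l * (B1 : ℤ) ^ (m l) * (negP p e : ℤ) ^ l
      = ((V * b2 ^ m d : ℕ) : ℤ) * (B2 : ℤ) ^ (m l) * (s * (posP p e : ℤ)) ^ l := by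
    intro l hl
    have h1 := hrel0 l hl
    have e1 : (b2 : ℤ) ^ m d = (b2 : ℤ) ^ (m d - m l) * (b2 : ℤ) ^ m l := by
      rw [← pow_add, Nat.sub_add_cancel (hmmono l hl)]
    simp only [hA', hB1, hB2]
    push_cast
    rw [mul_pow, mul_pow, mul_pow, e1]
    linear_combination (s ^ l * (b1 : ℤ) ^ m l * (b2 : ℤ) ^ (m d - m l) * (b2 : ℤ) ^ m l) * h1
  set HA : ℕ := V ^ 2 * H ^ m d with hHA
  have hA'le : ∀ l ≤ d, |A' l| ≤ (HA : ℤ) := by
    intro l hl
    have h1 : |A' l| = ((Al l * (b1 ^ m l * b2 ^ (m d - m l)) : ℕ) : ℤ) := by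
      simp only [hA']
      rw [abs_mul, hsl l, one_mul, abs_of_nonneg (by positivity)]
    rw [h1]
    have h2 : Al l * (b1 ^ m l * b2 ^ (m d - m l)) ≤ HA := by
      rw [hHA]
      refine Nat.mul_le_mul (hAW l hl) ?_
      calc b1 ^ m l * b2 ^ (m d - m l) ≤ H ^ m l * H ^ (m d - m l) :=
            Nat.mul_le_mul (Nat.pow_le_pow_left hb1H _) (Nat.pow_le_pow_left hb2H _)
        _ = H ^ m d := by rw [← pow_add, Nat.add_sub_cancel' (hmmono l hl)]
    exact_mod_cast h2
  have hVb : 0 < V * b2 ^ m d := Nat.mul_pos hVpos (pow_pos hb2 _)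
  -- everything is compared with `Ω = N lam`
  set Ω : ℝ := (N : ℝ) * lam with hΩ
  have hΩ0 : 0 < Ω := by positivity
  have hNΩ : (N : ℝ) ≤ Ω := by
    have : (N : ℝ) * 1 ≤ N * lam := mul_le_mul_of_nonneg_left hlam2 hNR.le
    linarith
  set U : ℕ := (D + 1) * (d + 1) * 2 ^ (m d + D + d) with hU
  have hU0 : 0 < U := by positivity
  set ee : ℕ := W * (W + 1) * j with hee
  have t1 : ((ee : ℝ) + 1) * Real.log (U : ℝ) ≤ ω * Ω / 8 := by
    have hlogU : Real.log (U : ℝ) ≤ 8 * α * ((W : ℝ) + 1) ^ 2 * N := by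
      rw [hU]
      push_cast
      rw [Real.log_mul (by positivity) (by positivity), Real.log_pow]
      push_cast
      refine logU_aux N W α (m d) D d _ j a y0 hNR hWR hα hj64R (by exact_mod_cast haN) hyR hmdR
        (Nat.cast_nonneg _) hD0 hd0 ?_ ?_ ?_
      · have : D ≤ N := by omega
        exact_mod_cast this
      · have : d ≤ N := by
          have e3 : d + 1 ≤ (d + 1) * (W + 2) := Nat.le_mul_of_pos_right _ (by omega)
          omega
        exact_mod_cast this
      · have h1 : (0 : ℝ) < ((D : ℝ) + 1) * (d + 1) := by positivity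
        have h2 := Real.log_le_sub_one_of_pos h1
        have e1 : (D + 1) * (d + 1) ≤ N * y0 + 2 * a := by
          calc (D + 1) * (d + 1) = d * (D + 1) + (D + 1) := by ring
            _ ≤ (N * y0 + a) + a := by gcongr
            _ = _ := by ring
        have e2 : ((D : ℝ) + 1) * (d + 1) ≤ N * y0 + 2 * a := by exact_mod_cast e1
        linarith only [h2, e2]
    have h1 : ((ee : ℝ) + 1) * Real.log (U : ℝ) ≤
        ((ee : ℝ) + 1) * (8 * α * ((W : ℝ) + 1) ^ 2 * N) :=
      mul_le_mul_of_nonneg_left hlogU (by positivity)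
    have h2 : (ee : ℝ) = (W : ℝ) * (W + 1) * j := by
      rw [hee]; push_cast; ring
    have h3 : ((ee : ℝ) + 1) * (8 * α * ((W : ℝ) + 1) ^ 2 * N) ≤ ω * lam * N / 8 := by
      rw [h2]
      have h4 := mul_le_mul_of_nonneg_right hlam hNR.le
      have h5 : ((W : ℝ) * (W + 1) * j + 1) * (8 * α * ((W : ℝ) + 1) ^ 2 * N) =
        64 * α * ((W : ℝ) + 1) ^ 2 * ((W : ℝ) * (W + 1) * j + 1) * N / 8 := by ring
      rw [h5]
      linarith
    have h4 : ω * Ω / 8 = ω * lam * N / 8 := by rw [hΩ]; ring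
    rw [h4]
    linarith
  have t1' : (ee : ℝ) * Real.log (U : ℝ) ≤ ω * Ω / 8 := by
    have h1 : 0 ≤ Real.log (U : ℝ) := Real.log_natCast_nonneg _
    have h2 : ((ee : ℝ) + 1) * Real.log (U : ℝ) = ee * Real.log (U : ℝ) + Real.log (U : ℝ) := by
      ring
    linarith
  have hωΩ : ω * Ω ≤ 1 / 2 * Ω := mul_le_mul_of_nonneg_right hω2 hΩ0.le
  have hωΩ0 : 0 < ω * Ω := by positivity
  refine coreW m A' D d γ N W (N * W) (3 * a) q B1 B2 (V * b2 ^ m d) (m d + D) HA ee
    (negP p e) (s * posP p e) hγ0 hNpos hq hB1pos hB2pos hneB hVb ?_ hA'le ?_ ?_ le_rfl ?_ le_rfl ?_ ?_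
    ?_ ?_ ?_ ?_ ?_ hrel ?_ ?_ ?_
  · -- coprimality of `Z1` and `Z2`
    have h1 := posP_coprime_negP hp hinj e
    have h2 : IsCoprime (negP p e : ℤ) (posP p e : ℤ) := Nat.isCoprime_iff_coprime.2 h1.symm
    rcases hs with h | h
    · rw [h, one_mul]
      exact h2
    · rw [h, neg_one_mul]
      exact h2.neg_right
  · intro l _
    have : γ * m l ≤ l * N := Nat.mul_div_le _ _
    rw [mul_comm N l]
    exact this
  · intro l _
    have : l * N < γ * (m l + 1) := Nat.lt_mul_div_succ _ hγ0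
    rw [mul_comm N l]
    exact this
  · -- `N2 ≤ N1`
    have h1 : 3 * a ≤ j * a := Nat.mul_le_mul_right _ (by omega)
    have h2 : 3 * a ≤ N := by
      have h3 : 6 * a ≤ j * a := Nat.mul_le_mul_right _ (by omega)
      omega
    exact h2.trans (Nat.le_mul_of_pos_right _ (by omega))
  · -- `N1 ≤ N (W + 1) + N2`
    have : N * W ≤ N * (W + 1) := Nat.mul_le_mul_left _ (by omega)
    omega
  · -- Siegel
    rw [sum_cond, ← hy0]
    have h1 : N * y0 ≤ ee * a := by
      calc N * y0 ≤ N * (W * (W + 1)) := Nat.mul_le_mul_left _ (by omega)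
        _ ≤ (j * a) * (W * (W + 1)) := Nat.mul_le_mul_right _ ha1.le
        _ = ee * a := by rw [hee]; ring
    calc (ee + 1) * (N * y0) = ee * (N * y0) + N * y0 := by ring
      _ ≤ ee * (N * y0) + ee * a := by omega
      _ = ee * (N * y0 + a) := by ring
      _ ≤ ee * ((D + 1) * (d + 1)) := Nat.mul_le_mul_left _ hd2.le
  · exact Nat.mul_pos hNpos (by omega)
  · rw [hB1, hB2]
    push_cast
    exact hfM
  · have h1 : (negP p e : ℤ) - s * posP p e = -s * ((posP p e : ℤ) - s * negP p e) := by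
      linear_combination -(negP p e : ℤ) * hs2
    rw [h1]
    exact hdvd.mul_left _
  · -- `q` does not divide `B1`
    rw [hB1]
    intro hd
    rcases (Nat.Prime.dvd_mul hq).1 hd with h | h
    · have := Nat.le_of_dvd hb2 h
      omega
    · have h1 := (posP_coprime hcop f).symm
      exact (Nat.Prime.coprime_iff_not_dvd hq).1 h1 h
  · intro hd
    have h1 := (negP_coprime hcop e).symm
    exact (Nat.Prime.coprime_iff_not_dvd hq).1 h1 (Int.natCast_dvd_natCast.1 hd)
  · -- `Z1` or `Z2` is large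
    by_contra hcon2
    push Not at hcon2
    obtain ⟨h1, h2⟩ := hcon2
    have h3 : |s * (posP p e : ℤ)| = (posP p e : ℤ) := by
      rw [abs_mul]
      have := hsl 1
      rw [pow_one] at this
      rw [this, one_mul, abs_of_nonneg (by positivity)]
    rw [h3] at h2
    rw [abs_of_nonneg (by positivity)] at h1
    have h1' : negP p e ≤ U ^ ee := by exact_mod_cast h1
    have h2' : posP p e ≤ U ^ ee := by exact_mod_cast h2
    have hnp : (0 : ℝ) < negP p e := by exact_mod_cast negP_pos hpos e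
    have hpp : (0 : ℝ) < posP p e := by exact_mod_cast posP_pos hpos e
    have h4 : Real.log (negP p e) ≤ ee * Real.log (U : ℝ) := by
      rw [← Real.log_pow]
      exact Real.log_le_log hnp (by exact_mod_cast h1')
    have h5 : Real.log (posP p e) ≤ ee * Real.log (U : ℝ) := by
      rw [← Real.log_pow]
      exact Real.log_le_log hpp (by exact_mod_cast h2')
    have h6 : (12800 : ℝ) ≤ Ω := by
      have : (12800 : ℝ) ≤ N := by
        have : 12800 ≤ N := by omega
        exact_mod_cast this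
      linarith
    linarith
  · -- size
    have hmB : 0 < max B1 B2 := lt_max_of_lt_left hB1pos
    have hmBR : (0 : ℝ) < ((max B1 B2 : ℕ) : ℝ) := by exact_mod_cast hmB
    have hVR : (0 : ℝ) < (V : ℝ) := by exact_mod_cast hVpos
    have hHR : (0 : ℝ) < (H : ℝ) := by exact_mod_cast hH
    have hUR : (0 : ℝ) < (U : ℝ) := by exact_mod_cast hU0
    have hqR : (0 : ℝ) < (q : ℝ) := by exact_mod_cast hq.pos
    have h3aW : 3 * a ≤ N * W := by
      have h3 : 6 * a ≤ j * a := Nat.mul_le_mul_right _ (by omega)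
      have h4 : 3 * a ≤ N := by omega
      exact h4.trans (Nat.le_mul_of_pos_right _ (by omega))
    have hgoal : (U : ℝ) ^ (ee + 1) *
        ((max B1 B2 : ℕ) : ℝ) ^ D * ((V : ℝ) ^ 2 * (H : ℝ) ^ m d) < (q : ℝ) ^ (N * W - 3 * a) := by
      rw [← Real.log_lt_log_iff (by positivity) (by positivity)]
      rw [Real.log_mul (by positivity) (by positivity), Real.log_mul (by positivity) (by positivity),
        Real.log_mul (by positivity) (by positivity), Real.log_pow, Real.log_pow, Real.log_pow,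
        Real.log_pow, Real.log_pow]
      push_cast [Nat.cast_sub h3aW]
      have hmd0 : (0 : ℝ) ≤ (m d : ℝ) := Nat.cast_nonneg _
      have hb1R : (b1 : ℝ) ≠ 0 := by
        have : b1 ≠ 0 := by omega
        exact_mod_cast this
      have hb2R : (b2 : ℝ) ≠ 0 := by
        have : b2 ≠ 0 := by omega
        exact_mod_cast this
      have hBpR : (Bp : ℝ) ≠ 0 := by exact_mod_cast hBppos.ne'
      have hBnR : (Bn : ℝ) ≠ 0 := by exact_mod_cast hBnpos.ne'
      have hlogmax : Real.log (max (B1 : ℝ) (B2 : ℝ)) ≤ κ * lam + α * (γ * lam) + La := by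
        have hcast : (max (B1 : ℝ) (B2 : ℝ)) = ((max B1 B2 : ℕ) : ℝ) := by push_cast; rfl
        rw [hcast]
        have e1 : Real.log (B1 : ℝ) ≤ κ * lam + α * (γ * lam) + La := by
          rw [hB1]
          push_cast
          rw [Real.log_mul hb2R hBpR]
          linarith
        have e2 : Real.log (B2 : ℝ) ≤ κ * lam + α * (γ * lam) + La := by
          rw [hB2]
          push_cast
          rw [Real.log_mul hb1R hBnR]
          linarith
        rcases max_choice B1 B2 with h | h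
        · rw [h]; exact e1
        · rw [h]; exact e2
      have hlogV : Real.log (V : ℝ) = Real.log Bp + Real.log Bn + w * L := by
        rw [hV, log_prod_pow p hpos v, hBpdef, hBndef, log_posP_add hpos f, hL, Finset.mul_sum,
          ← Finset.sum_add_distrib]
        refine Finset.sum_congr rfl fun i _ => ?_
        simp only [hv]
        push_cast
        rw [Nat.cast_natAbs]
        push_cast
        ring
      have hwQ : (w : ℝ) * Q ≤ 2 * α * ((W : ℝ) + 1) * N := by
        have e3 : γ * Q * w ≤ d * N := Nat.mul_div_le _ _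
        have e3R : (γ : ℝ) * Q * w ≤ d * N := by exact_mod_cast e3
        have e5 : (γ : ℝ) * (w * Q) ≤ γ * (2 * α * ((W : ℝ) + 1) * N) := by
          calc (γ : ℝ) * (w * Q) = γ * Q * w := by ring
            _ ≤ d * N := e3R
            _ ≤ (γ * (2 * α * ((W : ℝ) + 1))) * N := mul_le_mul_of_nonneg_right hdR2 hNR.le
            _ = _ := by ring
        exact le_of_mul_le_mul_left e5 hγR
      have h1γ : (1 : ℝ) ≤ γ := by exact_mod_cast hγ0
      have hkey3 := size_aux N W j k γ D a Q w (m d) ee ω κ α lam L La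
        (Real.log (max (B1 : ℝ) (B2 : ℝ))) (Real.log (V : ℝ)) (Real.log (H : ℝ))
        (Real.log (U : ℝ)) (Real.log Bp) (Real.log Bn) hκ hω hω2 hα hWR hκω hακ hκ2 hj0R hj hk
        hNR hlam0 h1γ hNγR hD0 (Nat.cast_nonneg _) (Nat.cast_nonneg _) hmd0 hLa0 hD1 hDk ha3R
        hmdR hwQ hLQ hLa hLaω t1 hlogmax hlogV hBp hBn hHκ
      exact hkey3
    exact_mod_cast hgoal
  · -- zero estimate
    intro b' r hb hbr hr hrd
    exact hineq_aux N γ D d a W j k α hα hW (by omega) hk hγk hNγ ha1 ha3 hD1 hD2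
      (by rw [← hy0]; exact hd1) hDa hda b' r hb hbr hr hrd

end Pool.Agent.Lib.AbcW
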