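import Mathlib

/-!
# Determinants of iterated Euler derivatives

For linearly independent polynomials `v 0, …, v (r-1)` over `ℚ` the determinant of the matrix
`(X d/dX)^a (v j)` does not vanish.
-/

set_option autoImplicit false

namespace Pool.Agent.Lib.AbcW

open Polynomial Finset

/-- The Euler operator as a linear map. -/
noncomputable def eul : Module.End ℚ ℚ[X] := (LinearMap.mulLeft ℚ (X : ℚ[X])) ∘ₗ derivative

theorem eul_apply (f : ℚ[X]) : eul f = X * derivative f := rfl

theorem coeff_eul (f : ℚ[X]) (i : ℕ) : (eul f).coeff i = (i : ℚ) * f.coeff i := by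
  rw [eul_apply]
  rcases i with _ | i
  · simp
  · rw [coeff_X_mul, coeff_derivative]
    push_cast
    ring

theorem coeff_eul_pow (a : ℕ) (f : ℚ[X]) (i : ℕ) :
    ((eul ^ a) f).coeff i = (i : ℚ) ^ a * f.coeff i := by
  induction a with
  | zero => simp
  | succ a ih =>
    rw [pow_succ', Module.End.mul_apply, coeff_eul, ih, pow_succ]
    ring

theorem eul_pow_monomial (a : ℕ) (c : ℚ) (i : ℕ) :
    (eul ^ a) (C c * X ^ i) = C ((i : ℚ) ^ a * c) * X ^ i := by
  ext k
  rw [coeff_eul_pow, coeff_C_mul_X_pow, coeff_C_mul_X_pow]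
  split_ifs with h
  · rw [h]
  · rw [mul_zero]

theorem eul_pow_X_pow (a : ℕ) (i : ℕ) :
    (eul ^ a) (X ^ i : ℚ[X]) = C ((i : ℚ) ^ a) * X ^ i := by
  have h := eul_pow_monomial a 1 i
  rwa [map_one, one_mul, mul_one] at h

theorem eul_dvd {x : ℚ} {N : ℕ} {f : ℚ[X]} (h : (X - C x) ^ N ∣ f) :
    (X - C x) ^ (N - 1) ∣ eul f := by
  rcases N with _ | N
  · simp
  · obtain ⟨g, rfl⟩ := h
    refine ⟨X * (C ((N : ℚ) + 1) * g + (X - C x) * derivative g), ?_⟩
    rw [eul_apply, derivative_mul, derivative_X_sub_C_pow]
    simp only [Nat.add_sub_cancel]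
    push_cast
    rw [map_add, map_one, map_natCast]
    ring

theorem eul_pow_dvd {x : ℚ} {N : ℕ} {f : ℚ[X]} (a : ℕ) (h : (X - C x) ^ N ∣ f) :
    (X - C x) ^ (N - a) ∣ (eul ^ a) f := by
  induction a with
  | zero => simpa using h
  | succ a ih =>
    rw [pow_succ', Module.End.mul_apply]
    have h1 := eul_dvd ih
    rwa [Nat.sub_sub] at h1

theorem natDegree_eul_pow_le (a : ℕ) (f : ℚ[X]) : ((eul ^ a) f).natDegree ≤ f.natDegree := by
  rw [natDegree_le_iff_coeff_eq_zero]
  intro i hi
  rw [coeff_eul_pow, coeff_eq_zero_of_natDegree_lt hi, mul_zero]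

/-- The matrix of Euler derivatives. -/
noncomputable def wmat (r : ℕ) (v : Fin r → ℚ[X]) : Matrix (Fin r) (Fin r) ℚ[X] :=
  Matrix.of fun a j => (eul ^ (a : ℕ)) (v j)

/-- The Wronskian with respect to the Euler operator. -/
noncomputable def wr (r : ℕ) (v : Fin r → ℚ[X]) : ℚ[X] := (wmat r v).det

theorem wr_ne_zero_of_injective (r : ℕ) (v : Fin r → ℚ[X]) (hv : ∀ j, v j ≠ 0)
    (hinj : Function.Injective fun j => (v j).natDegree) : wr r v ≠ 0 := by
  set n : Fin r → ℕ := fun j => (v j).natDegree with hn
  obtain ⟨D, hD⟩ : ∃ D, ∀ j, n j ≤ D := by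
    refine ⟨∑ j, n j, fun j => ?_⟩
    exact Finset.single_le_sum (f := n) (fun _ _ => Nat.zero_le _) (Finset.mem_univ j)
  intro hdet
  have h1 : (Matrix.of fun (a j : Fin r) => X ^ (D - n j) * (eul ^ (a : ℕ)) (v j)).det = 0 := by
    have := Matrix.det_mul_row (fun j : Fin r => (X : ℚ[X]) ^ (D - n j)) (wmat r v)
    simp only [wmat, Matrix.of_apply] at this
    rw [this]
    have h2 : (Matrix.of fun (a j : Fin r) => (eul ^ (a : ℕ)) (v j)).det = 0 := hdet
    rw [h2, mul_zero]
  have h2 : ((Matrix.of fun (a j : Fin r) => X ^ (D - n j) * (eul ^ (a : ℕ)) (v j)).det).coeff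
      (r * D) = (Matrix.of fun (a j : Fin r) => (v j).leadingCoeff * (n j : ℚ) ^ (a : ℕ)).det := by
    rw [Matrix.det_apply, Matrix.det_apply, finsetSum_coeff]
    refine Finset.sum_congr rfl ?_
    intro σ _
    have hcf : ∀ (a j : Fin r), (X ^ (D - n j) * (eul ^ (a : ℕ)) (v j)).coeff D
        = (v j).leadingCoeff * (n j : ℚ) ^ (a : ℕ) := by
      intro a j
      have hDn : n j + (D - n j) = D := by have := hD j; omega
      have h7 : (X ^ (D - n j) * (eul ^ (a : ℕ)) (v j)).coeff (n j + (D - n j))
          = ((eul ^ (a : ℕ)) (v j)).coeff (n j) := by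
        rw [mul_comm, coeff_mul_X_pow]
      rw [hDn] at h7
      rw [h7, coeff_eul_pow]
      unfold leadingCoeff
      rw [mul_comm]
    have hdeg : ∀ i ∈ (Finset.univ : Finset (Fin r)),
        ((Matrix.of fun (a j : Fin r) => X ^ (D - n j) * (eul ^ (a : ℕ)) (v j)) (σ i) i).natDegree
          ≤ D := by
      intro i _
      simp only [Matrix.of_apply]
      refine (natDegree_mul_le).trans ?_
      have h3 := natDegree_eul_pow_le (σ i : ℕ) (v i)
      have h4 := hD i
      rw [natDegree_X_pow]
      have h5 : ((eul ^ (↑(σ i) : ℕ)) (v i)).natDegree ≤ n i := h3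
      omega
    have h6 := coeff_prod_of_natDegree_le (Finset.univ : Finset (Fin r))
      (fun i => (Matrix.of fun (a j : Fin r) => X ^ (D - n j) * (eul ^ (a : ℕ)) (v j)) (σ i) i)
      D hdeg
    rw [Finset.card_univ, Fintype.card_fin] at h6
    rw [Polynomial.coeff_smul, h6]
    congr 1
    refine Finset.prod_congr rfl ?_
    intro i _
    simp only [Matrix.of_apply]
    exact hcf (σ i) i
  rw [h1, coeff_zero] at h2
  have h3 : (Matrix.of fun (a j : Fin r) => (v j).leadingCoeff * (n j : ℚ) ^ (a : ℕ)).det
      = (∏ j, (v j).leadingCoeff) * (Matrix.vandermonde fun j => (n j : ℚ)).det := by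
    have := Matrix.det_mul_row (fun j => (v j).leadingCoeff)
      (Matrix.vandermonde fun j => (n j : ℚ)).transpose
    rw [Matrix.det_transpose] at this
    rw [← this]
    rfl
  rw [h3] at h2
  have h4 : (∏ j, (v j).leadingCoeff) ≠ 0 :=
    Finset.prod_ne_zero_iff.2 (fun j _ => leadingCoeff_ne_zero.2 (hv j))
  have h5 : (Matrix.vandermonde fun j => (n j : ℚ)).det ≠ 0 := by
    refine Matrix.det_vandermonde_ne_zero_iff.2 ?_
    intro i j hij
    apply hinj
    have h6 : (n i : ℚ) = (n j : ℚ) := hij
    exact_mod_cast h6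
  exact (mul_ne_zero h4 h5) h2.symm

/-- Independence in elementary form. -/
def Ind (r : ℕ) (v : Fin r → ℚ[X]) : Prop :=
  ∀ t : Fin r → ℚ, ∑ j, t j • v j = 0 → ∀ j, t j = 0

theorem Ind.ne_zero {r : ℕ} {v : Fin r → ℚ[X]} (h : Ind r v) (j : Fin r) : v j ≠ 0 := by
  intro h0
  have h1 := h (Pi.single j 1) (by
    rw [Finset.sum_eq_single j]
    · rw [h0, smul_zero]
    · intro b _ hb
      rw [Pi.single_eq_of_ne hb, zero_smul]
    · intro h2
      exact absurd (Finset.mem_univ j) h2) j
  rw [Pi.single_eq_same] at h1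
  exact one_ne_zero h1

theorem wr_ne_zero (r : ℕ) : ∀ (n : ℕ) (v : Fin r → ℚ[X]), Ind r v →
    ∑ j, (v j).natDegree ≤ n → wr r v ≠ 0 := by
  intro n
  induction n using Nat.strong_induction_on with
  | _ n ih =>
  intro v hv hn
  by_cases hinj : Function.Injective fun j => (v j).natDegree
  · exact wr_ne_zero_of_injective r v hv.ne_zero hinj
  · simp only [Function.Injective, not_forall] at hinj
    obtain ⟨i, j, hij, hne⟩ := hinj
    set s : ℚ := (v i).leadingCoeff / (v j).leadingCoeff with hs
    have hlj : (v j).leadingCoeff ≠ 0 := leadingCoeff_ne_zero.2 (hv.ne_zero j)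
    have hli : (v i).leadingCoeff ≠ 0 := leadingCoeff_ne_zero.2 (hv.ne_zero i)
    have hs0 : s ≠ 0 := div_ne_zero hli hlj
    set v' : Fin r → ℚ[X] := Function.update v i (v i + (-s) • v j) with hv'
    have hv'i : v' i = v i + (-s) • v j := by rw [hv', Function.update_self]
    have hv'k : ∀ k, k ≠ i → v' k = v k := fun k hk => by rw [hv', Function.update_of_ne hk]
    have hind : Ind r v' := by
      intro t ht
      have h1 : ∑ k, (Function.update t j (t j + (-s) * t i)) k • v k = 0 := by
        rw [← ht]
        have e1 : ∑ k, t k • v' k = ∑ k, t k • v k + (t i * (-s)) • v j := by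
          rw [← Finset.add_sum_erase _ _ (Finset.mem_univ i),
            ← Finset.add_sum_erase (s := Finset.univ) (f := fun k => t k • v k) (a := i)
              (Finset.mem_univ i), hv'i, smul_add, smul_smul]
          have e2 : ∑ k ∈ Finset.univ.erase i, t k • v' k
              = ∑ k ∈ Finset.univ.erase i, t k • v k := by
            refine Finset.sum_congr rfl ?_
            intro k hk
            rw [hv'k k (Finset.ne_of_mem_erase hk)]
          rw [e2]
          abel
        have e3 : ∑ k, (Function.update t j (t j + (-s) * t i)) k • v k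
            = ∑ k, t k • v k + (t i * (-s)) • v j := by
          rw [← Finset.add_sum_erase _ _ (Finset.mem_univ j),
            ← Finset.add_sum_erase (s := Finset.univ) (f := fun k => t k • v k) (a := j)
              (Finset.mem_univ j), Function.update_self, add_smul]
          have e2 : ∑ k ∈ Finset.univ.erase j, (Function.update t j (t j + (-s) * t i)) k • v k
              = ∑ k ∈ Finset.univ.erase j, t k • v k := by
            refine Finset.sum_congr rfl ?_
            intro k hk
            rw [Function.update_of_ne (Finset.ne_of_mem_erase hk)]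
          rw [e2, mul_comm (-s) (t i)]
          abel
        rw [e1, e3]
      have h2 := hv _ h1
      have h3 : ∀ k, k ≠ j → t k = 0 := by
        intro k hk
        have h4 := h2 k
        rwa [Function.update_of_ne hk] at h4
      have h5 := h2 j
      rw [Function.update_self, h3 i hne, mul_zero, add_zero] at h5
      intro k
      by_cases hk : k = j
      · rw [hk]
        exact h5
      · exact h3 k hk
    have hdeg : (v' i).natDegree < (v i).natDegree := by
      have h1 : (v' i).degree < (v i).degree := by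
        rw [hv'i, neg_smul, ← sub_eq_add_neg, smul_eq_C_mul]
        apply degree_sub_lt_left
        · rw [degree_C_mul hs0, degree_eq_natDegree (hv.ne_zero i),
            degree_eq_natDegree (hv.ne_zero j)]
          exact congrArg _ hij
        · exact hv.ne_zero i
        · rw [leadingCoeff_mul, leadingCoeff_C, hs, div_mul_cancel₀ _ hlj]
      exact natDegree_lt_natDegree (hind.ne_zero i) h1
    have hsum : ∑ k, (v' k).natDegree < ∑ k, (v k).natDegree := by
      refine Finset.sum_lt_sum ?_ ⟨i, Finset.mem_univ i, hdeg⟩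
      intro k _
      by_cases hk : k = i
      · rw [hk]
        exact hdeg.le
      · rw [hv'k k hk]
    have h6 : wr r v' ≠ 0 := ih _ (lt_of_lt_of_le hsum hn) v' hind le_rfl
    have h7 : wr r v' = wr r v := by
      unfold wr
      have h8 := Matrix.det_updateCol_add_smul_self (wmat r v) hne (C (-s))
      rw [← h8]
      congr 1
      ext1 a k
      by_cases hk : k = i
      · rw [hk, Matrix.updateCol_self]
        simp only [wmat, Matrix.of_apply]
        rw [hv'i, map_add, map_smul, smul_eq_C_mul, smul_eq_mul]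
      · rw [Matrix.updateCol_ne hk]
        simp only [wmat, Matrix.of_apply]
        rw [hv'k k hk]
    rw [← h7]
    exact h6

end Pool.Agent.Lib.AbcW
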